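import Pool.Agent.H812R3.CantorChar

set_option autoImplicit false

/-!
MP_8027ba_an: every nonempty compact perfect subset `X` of the line is homeomorphic to a set of sums
`S = K₀ + K₁ + ...`.  Blueprint.  Prove `theorem taskX (h : TaskY) ... : TaskX` in
`Pool/Agent/Q24/TS/TaskX.lean`, namespace `Q24.TS` (any other tasks may be hypotheses).

Idea.  `K 0` is a copy `f0 '' X (+ {0, r 0})` of `X` with weights on gaps and intervals, `K j = {0, r j}`.
Stage `j`: gaps of length `≥ δ j` cut `X` into blocks (`Same`); a block which contains an interval has a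
chosen component `[cL, cR]`; blocks without interval (`A X j`) are Cantor sets and are cut no further
(`Used`).  `n` = number of used gaps on the left, `h` = position with respect to the chosen component.
-/

namespace Q24.TS

open Set Filter Topology

/-- the set of sums -/
def Sums (K : ℕ → Set ℝ) : Set ℝ := {y | ∃ x : ℕ → ℝ, (∀ j, x j ∈ K j) ∧ HasSum x y}

/-- the hypotheses on the sequence of sets -/
structure Adm (K : ℕ → Set ℝ) : Prop where
  compact : ∀ i, IsCompact (K i)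
  zero : ∀ i, (0 : ℝ) ∈ K i
  nonneg : ∀ i, ∀ x ∈ K i, 0 ≤ x
  pos : ∀ i, 0 < Metric.diam (K i)
  tend : Tendsto (fun i => Metric.diam (K i)) atTop (𝓝 0)
  summable : Summable fun i => Metric.diam (K i)

/-- nonempty, compact, perfect -/
def CP (X : Set ℝ) : Prop := IsCompact X ∧ X.Nonempty ∧ Perfect X

/-! ### the two easy facts (known direction) -/

def TaskSCompact : Prop := ∀ K, Adm K → IsCompact (Sums K) ∧ (Sums K).Nonempty

/-- change one late term -/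
def TaskSPerfect : Prop := ∀ K, Adm K → Perfect (Sums K)

def TaskTransfer : Prop := ∀ X Y : Set ℝ, Nonempty (X ≃ₜ Y) → IsCompact Y → Y.Nonempty → Perfect Y →
  IsCompact X ∧ X.Nonempty ∧ Perfect X

/-! ### blocks -/

noncomputable def δ (j : ℕ) : ℝ := 1 / ((j : ℝ) + 1)

def Gap (X : Set ℝ) (u v : ℝ) : Prop := u ∈ X ∧ v ∈ X ∧ u < v ∧ ∀ t, u < t → t < v → t ∉ X

/-- no gap of length `≥ δ j` between `x` and `y` -/
def Same (X : Set ℝ) (j : ℕ) (x y : ℝ) : Prop :=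
  ∀ u v, Gap X u v → δ j ≤ v - u → min x y ≤ u → v ≤ max x y → False

/-- points whose block at stage `j` contains no interval -/
def A (X : Set ℝ) (j : ℕ) : Set ℝ :=
  {x | x ∈ X ∧ ∀ q : ℚ, (q : ℝ) ∈ interior X → ¬ Same X j x q}

/-- used gaps at stage `j` -/
def Used (X : Set ℝ) (j : ℕ) : Set (ℝ × ℝ) :=
  {p | Gap X p.1 p.2 ∧ δ j ≤ p.2 - p.1 ∧ ∀ i < j, p.1 ∈ A X i → δ i ≤ p.2 - p.1}

/-- number of used gaps to the left of `x` -/
noncomputable def n (X : Set ℝ) (j : ℕ) (x : ℝ) : ℕ := Set.ncard {p | p ∈ Used X j ∧ p.2 ≤ x}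

/-- an enumeration of the rationals -/
noncomputable def en : ℕ → ℚ := Classical.choose (exists_surjective_nat ℚ)

/-- the chosen rational in the block of `x` (least index) -/
noncomputable def q (X : Set ℝ) (j : ℕ) (x : ℝ) : ℝ :=
  (en (sInf {k | ((en k : ℚ) : ℝ) ∈ interior X ∧ Same X j x (en k)}) : ℝ)

/-- ends of the component of `t` -/
noncomputable def cL (X : Set ℝ) (t : ℝ) : ℝ := sInf {s | s ≤ t ∧ Icc s t ⊆ X}

noncomputable def cR (X : Set ℝ) (t : ℝ) : ℝ := sSup {s | t ≤ s ∧ Icc t s ⊆ X}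

open Classical in
/-- position with respect to the chosen component -/
noncomputable def h (X : Set ℝ) (j : ℕ) (x : ℝ) : ℝ :=
  if x ∈ A X j then 0
  else max 0 (min 1 ((x - cL X (q X j x)) / (cR X (q X j x) - cL X (q X j x))))

/-- basic facts on `Same`: symmetric; transitive through points of `X`; parts of an interval; monotone in
`j`; true for points at distance `< δ j` -/
def TaskSame : Prop := ∀ (X : Set ℝ) (j : ℕ),
  (∀ x y, Same X j x y → Same X j y x) ∧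
  (∀ x y z, y ∈ X → Same X j x y → Same X j y z → Same X j x z) ∧
  (∀ x y s t, Same X j x y → x ≤ s → s ≤ t → t ≤ y → Same X j s t) ∧
  (∀ x y i, i ≤ j → Same X j x y → Same X i x y) ∧
  (∀ x y, |x - y| < δ j → Same X j x y) ∧
  (∀ x y, x ≤ y → Icc x y ⊆ X → Same X j x y)

def TaskA : Prop := ∀ (X : Set ℝ) (j : ℕ),
  (∀ i ≤ j, A X i ⊆ A X j) ∧ (∀ x y, x ∈ A X j → y ∈ X → Same X j x y → y ∈ A X j)

/-- only finitely many gaps of length `≥ δ j` -/
def TaskFin : Prop := ∀ X, CP X → ∀ j, {p : ℝ × ℝ | Gap X p.1 p.2 ∧ δ j ≤ p.2 - p.1}.Finite ∧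
  (Used X j).Finite

/-- `n` is monotone and grows exactly when a used gap is passed -/
def TaskN : Prop := TaskFin → ∀ X, CP X → ∀ j x y, x ∈ X → y ∈ X → x ≤ y →
  n X j x ≤ n X j y ∧ n X j x ≤ (Used X j).ncard ∧
  (n X j x < n X j y ↔ ∃ p ∈ Used X j, x ≤ p.1 ∧ p.2 ≤ y)

/-- the blocks cut out by the used gaps. `←`: a used gap in `[x, y]` has left end in the same block.
`→`: take a gap `(u,v)`, `δ j ≤ v - u`, in `[x, y]` which is not used, so `u ∈ A X i`, `i < j`,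
`v - u < δ i`; take the least such `i` (least `i` with `u ∈ A X i`). Then not both `Same X i x u`,
`Same X i u y`; in the second case the first gap of length `≥ δ i` in `[u, y]` is used (its left end is in
the block of `u` at stage `i`, hence not in `A X i'` for `i' < i`), in the first case the last gap of length
`≥ δ i` in `[x, u]` is used -/
def TaskBlocks : Prop := TaskSame → TaskA → TaskFin → TaskN → ∀ X, CP X → ∀ j x y, x ∈ X → y ∈ X →
  x ≤ y → (n X j x = n X j y ↔ Same X j x y ∨ ∃ i < j, x ∈ A X i ∧ Same X i x y)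

/-- components -/
def TaskComp : Prop := ∀ X, CP X → ∀ t ∈ interior X,
  cL X t < t ∧ t < cR X t ∧ Icc (cL X t) (cR X t) ⊆ X ∧
  ∀ s s', s ≤ t → t ≤ s' → Icc s s' ⊆ X → cL X t ≤ s ∧ s' ≤ cR X t

/-- the chosen rational -/
def TaskQ : Prop := TaskSame → TaskA → ∀ X, CP X → ∀ j x, x ∈ X → x ∉ A X j →
  q X j x ∈ interior X ∧ Same X j x (q X j x) ∧
  (∀ y ∈ X, Same X j x y → y ∉ A X j ∧ q X j y = q X j x) ∧
  (∀ i ≤ j, Same X j x (q X i x) → q X i x = q X j x)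

/-- `h ∈ [0, 1]`, `h` is monotone on the blocks -/
def TaskH : Prop := TaskSame → TaskA → TaskFin → TaskN → TaskBlocks → TaskComp → TaskQ →
  ∀ X, CP X → ∀ j, (∀ x, 0 ≤ h X j x ∧ h X j x ≤ 1) ∧
    ∀ x y, x ∈ X → y ∈ X → x ≤ y → n X j x = n X j y → h X j x ≤ h X j y

/-- the chosen component. For `x < a = cL`, `i < j`: `q X i x` is in the block of `x` at stage `j` (then it is
the same component) or a gap separates it from both `x` and `a`, then both have the same clamp -/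
def TaskAnchor : Prop := TaskSame → TaskA → TaskFin → TaskN → TaskBlocks → TaskComp → TaskQ →
  ∀ X, CP X → ∀ j x, x ∈ X → x ∉ A X j →
  ∃ a b, a < b ∧ Icc a b ⊆ X ∧ (∀ y ∈ Icc a b, y ∉ A X j ∧ Same X j x y) ∧ h X j a = 0 ∧ h X j b = 1 ∧
    (x < a → h X j x = 0 ∧ ∀ i < j, h X i x = h X i a) ∧
    (b < x → h X j x = 1 ∧ ∀ i < j, h X i x = h X i b)

/-- separation of the points. Case `Icc x y ⊆ X`: no point of it is in `A`; for large `j` the chosen rational
of the block is in the same component (each rational of smaller index in the interior of `X` and outside of the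
component is separated from it by a gap). Otherwise take the least `j` with `¬ Same X j x y` -/
def TaskSep : Prop := TaskSame → TaskA → TaskFin → TaskN → TaskBlocks → TaskComp → TaskQ → TaskH →
  ∀ X, CP X → ∀ x y, x ∈ X → y ∈ X → x < y →
  (∃ k, x ∈ A X k ∧ Same X k x y) ∨
  (∃ j, n X j x < n X j y ∧ (∀ i < j, n X i x = n X i y ∧ h X i x ≤ h X i y) ∧
    ∀ k, (x ∈ A X k ∨ y ∈ A X k) → j ≤ k) ∨
  (∃ j, h X j x < h X j y ∧ ∀ i, n X i x = n X i y ∧ h X i x ≤ h X i y ∧ x ∉ A X i ∧ y ∉ A X i)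

/-- everything is constant on the Cantor blocks -/
def TaskConst : Prop := TaskSame → TaskA → TaskFin → TaskN → TaskBlocks → TaskComp → TaskQ →
  ∀ X, CP X → ∀ k x y, x ∈ A X k → y ∈ X → Same X k x y → ∀ j, n X j x = n X j y ∧ h X j x = h X j y

/-- continuity (everything is constant, or a clamp of one affine function, at distances `< δ j`) -/
def TaskCont : Prop := TaskSame → TaskA → TaskFin → TaskN → TaskBlocks → TaskComp → TaskQ →
  ∀ X, CP X → ∀ j, ContinuousOn (fun x => (n X j x : ℝ)) X ∧ ContinuousOn (h X j) X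

/-- the smallest point of `X` -/
def TaskMin : Prop := TaskSame → TaskA → TaskFin → TaskN → TaskBlocks → TaskComp → TaskQ →
  ∀ X, CP X → ∀ j, n X j (sInf X) = 0 ∧ h X j (sInf X) = 0

/-! ### weights -/

/-- the conditions on the weights -/
structure Wt (N W r : ℕ → ℝ) : Prop where
  Npos : ∀ j, 1 ≤ N j
  Wpos : ∀ j, 0 < W j
  rpos : ∀ j, 0 < r j
  sW : Summable fun j => W j * N j
  sr : Summable r
  Wr : ∀ j, ∑' i, W (j + 1 + i) * N (j + 1 + i) ≤ r j
  rW : ∀ j, 4 * ∑' i, r (j + i) ≤ W j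

/-- e.g. `W (j+1) N (j+1) = r j / 4`, `r j = W j / 16` -/
def TaskWt : Prop := ∀ N : ℕ → ℝ, (∀ j, 1 ≤ N j) → ∃ W r, Wt N W r

noncomputable def NN (X : Set ℝ) (j : ℕ) : ℝ := 2 * ((Used X j).ncard : ℝ) + 1

noncomputable def f0 (X : Set ℝ) (W : ℕ → ℝ) (x : ℝ) : ℝ := ∑' j, W j * (2 * (n X j x : ℝ) + h X j x)

noncomputable def fk (X : Set ℝ) (W r : ℕ → ℝ) (k : ℕ) (x : ℝ) : ℝ :=
  f0 X W x + ∑ i ∈ Finset.range k, r i * h X i x

noncomputable def finf (X : Set ℝ) (W r : ℕ → ℝ) (x : ℝ) : ℝ := f0 X W x + ∑' i, r i * h X i x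

/-- coins, allowed at `i` only if `x ∈ A X i` -/
def Coin (X : Set ℝ) (x : ℝ) (ε : ℕ → ℝ) : Prop := ∀ i, ε i = 0 ∨ (ε i = 1 ∧ x ∈ A X i)

/-- all coins -/
def Coin0 (ε : ℕ → ℝ) : Prop := ∀ i, ε i = 0 ∨ ε i = 1

/-- differences of `f0`: `Λ = 2 n + h` is monotone with values in `[0, NN]` -/
def TaskF0 : Prop := TaskFin → TaskN → TaskH → TaskCont → ∀ X, CP X → ∀ W r, Wt (NN X) W r →
  (∀ x ∈ X, Summable fun j => W j * (2 * (n X j x : ℝ) + h X j x)) ∧
  (∀ x, Summable fun i => r i * h X i x) ∧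
  ContinuousOn (f0 X W) X ∧ (∀ k, ContinuousOn (fk X W r k) X) ∧ ContinuousOn (finf X W r) X ∧
  (∀ k, ∀ x ∈ X, |finf X W r x - fk X W r k x| ≤ ∑' i, r (k + i)) ∧
  (∀ x ∈ X, ∀ y ∈ X, x ≤ y → f0 X W x ≤ f0 X W y) ∧
  (∀ x ∈ X, ∀ y ∈ X, x ≤ y → ∀ k, (∀ i ≤ k, n X i x = n X i y ∧ h X i x = h X i y) →
    f0 X W y ≤ f0 X W x + r k) ∧
  (∀ x ∈ X, ∀ y ∈ X, x ≤ y → ∀ k, n X k x = n X k y → h X k x = 0 → h X k y = 1 →
    f0 X W x + W k ≤ f0 X W y)

/-- one stage: `P (k+1) = P k + {0, r k}` by TaskAnchor, intermediate value theorem on `Icc a b`; note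
`fk (k+1) = fk k + r k * h k`; if `x ∉ A X k` all coins `i ≤ k` are zero; then induction on `k` -/
def TaskStage : Prop := TaskSame → TaskA → TaskFin → TaskN → TaskBlocks → TaskH → TaskAnchor → TaskF0 →
  TaskComp → TaskQ → TaskCont →
  ∀ X, CP X → ∀ W r, Wt (NN X) W r → ∀ k,
  {y | ∃ x ∈ X, ∃ ε, Coin X x ε ∧ y = fk X W r k x + ∑ i ∈ Finset.range k, ε i * r i} =
  {y | ∃ x ∈ X, ∃ ε, Coin0 ε ∧ y = f0 X W x + ∑ i ∈ Finset.range k, ε i * r i}

/-- the limit of TaskStage (compactness of `X` and of the space of coins, closedness) -/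
def TaskLimit : Prop := TaskSame → TaskA → TaskF0 → TaskFin → TaskN → TaskH → TaskCont →
  ∀ X, CP X → ∀ W r, Wt (NN X) W r →
  (∀ k, {y | ∃ x ∈ X, ∃ ε, Coin X x ε ∧ y = fk X W r k x + ∑ i ∈ Finset.range k, ε i * r i} =
    {y | ∃ x ∈ X, ∃ ε, Coin0 ε ∧ y = f0 X W x + ∑ i ∈ Finset.range k, ε i * r i}) →
  {y | ∃ x ∈ X, ∃ ε, Coin X x ε ∧ y = finf X W r x + ∑' i, ε i * r i} =
  {y | ∃ x ∈ X, ∃ ε, Coin0 ε ∧ y = f0 X W x + ∑' i, ε i * r i}

/-- the sets -/
def KK (X : Set ℝ) (W r : ℕ → ℝ) : ℕ → Set ℝ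
  | 0 => {z | ∃ x ∈ X, z = f0 X W x ∨ z = f0 X W x + r 0}
  | j + 1 => {0, r (j + 1)}

def TaskAdm : Prop := TaskF0 → TaskFin → TaskN → TaskH → TaskCont → TaskMin → ∀ X, CP X → ∀ W r,
  Wt (NN X) W r → (∀ j, n X j (sInf X) = 0 ∧ h X j (sInf X) = 0) → Adm (KK X W r)

def TaskSumsEq : Prop := ∀ X W r, Wt (NN X) W r → Sums (KK X W r) =
  {y | ∃ x ∈ X, ∃ ε, Coin0 ε ∧ y = f0 X W x + ∑' i, ε i * r i}

/-- separation of the values: from the three cases of TaskSep; e.g. in the second one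
`finf y - finf x ≥ W j - ∑ i ≥ j, r i ≥ 3 ∑ i ≥ j, r i` -/
def TaskInj : Prop := TaskSame → TaskA → TaskFin → TaskN → TaskBlocks → TaskH → TaskSep → TaskF0 →
  TaskComp → TaskQ → TaskCont →
  ∀ X, CP X → ∀ W r, Wt (NN X) W r → ∀ x y, x ∈ X → y ∈ X → x < y →
  (∃ k, x ∈ A X k ∧ Same X k x y) ∨
    ∀ ε, Coin X x ε → finf X W r x + ∑' i, ε i * r i < finf X W r y

/-! ### the Cantor blocks -/

/-- `Good.homeo` of `H812R3.CantorChar` -/
def TaskBlockCantor : Prop := TaskSame → TaskA → TaskFin → ∀ X, CP X → ∀ k, ∀ x ∈ A X k,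
  IsCompact {y | y ∈ X ∧ Same X k x y} ∧ Nonempty ({y | y ∈ X ∧ Same X k x y} ≃ₜ cantorSet)

/-- the Cantor sets `∑ i ≥ s, ε i r i` -/
def RS (r : ℕ → ℝ) (s : ℕ) : Set ℝ := {y | ∃ ε, Coin0 ε ∧ (∀ i < s, ε i = 0) ∧ y = ∑' i, ε i * r i}

/-- `r` decreases so fast that different coins have different sums -/
def TaskRS : Prop := ∀ r : ℕ → ℝ, (∀ j, 0 < r j) → Summable r → (∀ j, 4 * ∑' i, r (j + 1 + i) ≤ r j) →
  ∀ s, Nonempty (RS r s ≃ₜ cantorSet) ∧ ∀ y ∈ RS r s, 0 ≤ y ∧ y ≤ ∑' i, r (s + i)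

/-- glueing: `g x = F x` outside of the blocks, `F x + φ x` on a block, `φ` a homeomorphism of the block onto
`RS r s`, `s` the least `k` with `x ∈ A X k`, chosen once for each block (e.g. for `sInf` of the block); `g` is
continuous (near a point outside of `⋃ k, A X k` the values of `φ` are at most `∑ i ≥ k, r i`) and injective -/
def TaskGlue : Prop := TaskSame → TaskA → ∀ X, CP X → ∀ (r : ℕ → ℝ) (F : ℝ → ℝ), (∀ j, 0 < r j) → Summable r →
  ContinuousOn F X →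
  (∀ k, ∀ x ∈ A X k, IsCompact {y | y ∈ X ∧ Same X k x y} ∧
    Nonempty ({y | y ∈ X ∧ Same X k x y} ≃ₜ cantorSet)) →
  (∀ s, Nonempty (RS r s ≃ₜ cantorSet) ∧ ∀ y ∈ RS r s, 0 ≤ y ∧ y ≤ ∑' i, r (s + i)) →
  (∀ k x y, x ∈ A X k → y ∈ X → Same X k x y → F x = F y) →
  (∀ x y, x ∈ X → y ∈ X → x < y → (∃ k, x ∈ A X k ∧ Same X k x y) ∨
    ∀ ε, Coin X x ε → F x + ∑' i, ε i * r i < F y) →
  Nonempty (X ≃ₜ {y | ∃ x ∈ X, ∃ ε, Coin X x ε ∧ y = F x + ∑' i, ε i * r i})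

/-- the theorem -/
def Final : Prop := ∀ X : Set ℝ, (∃ K, Adm K ∧ Nonempty (X ≃ₜ Sums K)) ↔
  IsCompact X ∧ X.Nonempty ∧ Perfect X

end Q24.TS
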