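import Mathlib
import Pool.Agent.Q24.TS.Stmts

set_option autoImplicit false

namespace Q24.TS

open Set Filter Topology

theorem taskAdm : TaskAdm := by
  intro hF0 hFin hN hH hCont _ X hX W r hW hmin
  obtain ⟨-, -, hc, -⟩ := hF0 hFin hN hH hCont X hX W r hW
  obtain ⟨hXc, hXn, -⟩ := hX
  have hh : ∀ j x, 0 ≤ h X j x := by
    intro j x
    unfold h
    split_ifs
    · exact le_rfl
    · exact le_max_left _ _
  have hf0 : ∀ x, 0 ≤ f0 X W x := by
    intro x
    unfold f0
    refine tsum_nonneg fun j => mul_nonneg (hW.Wpos j).le ?_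
    have := hh j x
    positivity
  have hz : f0 X W (sInf X) = 0 := by
    unfold f0
    have : ∀ j, W j * (2 * (n X j (sInf X) : ℝ) + h X j (sInf X)) = 0 := by
      intro j
      rw [(hmin j).1, (hmin j).2]
      simp
    rw [tsum_congr this, tsum_zero]
  have hmem : sInf X ∈ X := hXc.sInf_mem hXn
  have h0 : (0 : ℝ) ∈ KK X W r 0 := ⟨sInf X, hmem, Or.inl hz.symm⟩
  have h0' : r 0 ∈ KK X W r 0 := ⟨sInf X, hmem, Or.inr (by rw [hz, zero_add])⟩
  have hcomp0 : IsCompact (KK X W r 0) := by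
    have e : KK X W r 0 = f0 X W '' X ∪ (fun z => z + r 0) '' (f0 X W '' X) := by
      ext z
      constructor
      · rintro ⟨x, hx, h | h⟩
        · exact Or.inl ⟨x, hx, h.symm⟩
        · exact Or.inr ⟨f0 X W x, ⟨x, hx, rfl⟩, h.symm⟩
      · rintro (⟨x, hx, h⟩ | ⟨_, ⟨x, hx, rfl⟩, h⟩)
        · exact ⟨x, hx, Or.inl h.symm⟩
        · exact ⟨x, hx, Or.inr h.symm⟩
    rw [e]
    have h1 := hXc.image_of_continuousOn hc
    exact h1.union (h1.image (continuous_id.add continuous_const))
  have hdiam : ∀ j, Metric.diam (KK X W r (j + 1)) = r (j + 1) := by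
    intro j
    show Metric.diam ({0, r (j + 1)} : Set ℝ) = r (j + 1)
    rw [Metric.diam_pair, Real.dist_eq, zero_sub, abs_neg, abs_of_pos (hW.rpos _)]
  have hsum : Summable fun i => Metric.diam (KK X W r i) := by
    rw [← summable_nat_add_iff 1]
    simp only [hdiam]
    exact (summable_nat_add_iff 1).2 hW.sr
  refine ⟨?_, ?_, ?_, ?_, hsum.tendsto_atTop_zero, hsum⟩
  · rintro (_ | j)
    · exact hcomp0
    · exact (Set.toFinite ({0, r (j + 1)} : Set ℝ)).isCompact
  · rintro (_ | j)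
    · exact h0
    · exact Or.inl rfl
  · rintro (_ | j) x hx
    · obtain ⟨y, -, h | h⟩ := hx
      · rw [h]; exact hf0 y
      · rw [h]; exact add_nonneg (hf0 y) (hW.rpos 0).le
    · rcases hx with h | h
      · rw [h]
      · rw [h]; exact (hW.rpos _).le
  · rintro (_ | j)
    · have h1 := Metric.dist_le_diam_of_mem hcomp0.isBounded h0 h0'
      rw [Real.dist_eq, zero_sub, abs_neg, abs_of_pos (hW.rpos 0)] at h1
      exact (hW.rpos 0).trans_le h1
    · rw [hdiam]
      exact hW.rpos _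

end Q24.TS
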