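import Pool.Agent.Q24.TS.Stmts

set_option autoImplicit false

namespace Q24.TS

open Set Filter Topology

private theorem dlt_anti {i j : ℕ} (h : i ≤ j) : δ j ≤ δ i := by
  unfold δ
  apply one_div_le_one_div_of_le
  · positivity
  · have : (i : ℝ) ≤ (j : ℝ) := by exact_mod_cast h
    linarith

theorem taskBlocks : TaskBlocks := by
  intro hSame hA hFin hN X hX j x y hx hy hxy
  obtain ⟨hle, -, hlt⟩ := hN hFin X hX j x y hx hy hxy
  have key : n X j x = n X j y ↔ ¬ ∃ p ∈ Used X j, x ≤ p.1 ∧ p.2 ≤ y := by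
    rw [← hlt, not_lt]
    exact ⟨fun h => h.ge, fun h => le_antisymm hle h⟩
  rw [key]
  constructor
  · intro hno
    by_contra hcon
    push Not at hcon
    obtain ⟨hns, hall⟩ := hcon
    have h1 : ∃ u v, Gap X u v ∧ δ j ≤ v - u ∧ x ≤ u ∧ v ≤ y := by
      by_contra hc
      apply hns
      intro u v hg hd h1 h2
      rw [min_eq_left hxy] at h1
      rw [max_eq_right hxy] at h2
      exact hc ⟨u, v, hg, hd, h1, h2⟩
    obtain ⟨u, v, hg, hd, hxu, hvy⟩ := h1
    have hnu : ¬ ((u, v) ∈ Used X j) := fun h => hno ⟨(u, v), h, hxu, hvy⟩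
    have h2 : ∃ i, i < j ∧ u ∈ A X i ∧ v - u < δ i := by
      by_contra hc
      apply hnu
      refine ⟨hg, hd, ?_⟩
      intro i hi hui
      by_contra hlt'
      exact hc ⟨i, hi, hui, not_le.1 hlt'⟩
    obtain ⟨i0, hi0, hui0, hd0⟩ := h2
    classical
    have hex : ∃ i, u ∈ A X i := ⟨i0, hui0⟩
    set i := Nat.find hex with hi
    have hui : u ∈ A X i := Nat.find_spec hex
    have hmin : ∀ i' < i, u ∉ A X i' := fun i' h => Nat.find_min hex h
    have hii0 : i ≤ i0 := Nat.find_min' hex hui0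
    have hij : i < j := lt_of_le_of_lt hii0 hi0
    have hu : u ∈ X := hg.1
    obtain ⟨hsym, htr, hpart, hmono, -, -⟩ := hSame X i
    -- claim
    have hS : ¬ Same X i x y := by
      intro hS
      refine hall i hij ?_ hS
      have huv : u ≤ y := le_trans hg.2.2.1.le hvy
      have : Same X i x u := hpart x y x u hS le_rfl hxu huv
      exact (hA X i).2 u x hui hx (hsym _ _ this)
    have h3 : ∃ s t, Gap X s t ∧ δ i ≤ t - s ∧ x ≤ s ∧ t ≤ y := by
      by_contra hc
      apply hS
      intro u v hg hd h1 h2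
      rw [min_eq_left hxy] at h1
      rw [max_eq_right hxy] at h2
      exact hc ⟨u, v, hg, hd, h1, h2⟩
    obtain ⟨s0, t0, hg0, hdd0, hxs0, hty0⟩ := h3
    have hfin : {p : ℝ × ℝ | Gap X p.1 p.2 ∧ δ i ≤ p.2 - p.1}.Finite := (hFin X hX i).1
    have hcase : u ≤ s0 ∨ t0 ≤ u := by
      by_contra hc
      push Not at hc
      exact hg0.2.2.2 u hc.1 hc.2 hu
    rcases hcase with hus | htu
    · -- first gap in [u, y]
      obtain ⟨⟨s, t⟩, ⟨⟨hgst, hdst⟩, hus', hty'⟩, hmn⟩ := Set.exists_min_image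
        ({p : ℝ × ℝ | (Gap X p.1 p.2 ∧ δ i ≤ p.2 - p.1) ∧ u ≤ p.1 ∧ p.2 ≤ y}) (fun p => p.1)
        (hfin.subset fun p hp => hp.1) ⟨(s0, t0), ⟨hg0, hdd0⟩, hus, hty0⟩
      simp only at hgst hdst hus' hty' hmn
      have hSus : Same X i u s := by
        intro a b hab hdab h1 h2
        rw [min_eq_left hus'] at h1
        rw [max_eq_right hus'] at h2
        have := hmn (a, b) ⟨⟨hab, hdab⟩, h1, le_trans h2 (le_trans hgst.2.2.1.le hty')⟩
        simp only at this
        have := hab.2.2.1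
        linarith
      apply hno
      refine ⟨(s, t), ⟨hgst, le_trans (dlt_anti hij.le) hdst, ?_⟩, le_trans hxu hus', hty'⟩
      intro i' hi' hsi'
      simp only at hsi' ⊢
      rcases lt_or_ge i' i with h | h
      · exfalso
        apply hmin i' h
        have hS' : Same X i' u s := hmono u s i' h.le hSus
        exact (hA X i').2 s u hsi' hu ((hSame X i').1 _ _ hS')
      · exact le_trans (dlt_anti h) hdst
    · -- last gap in [x, u]
      obtain ⟨⟨s, t⟩, ⟨⟨hgst, hdst⟩, hxs', htu'⟩, hmx⟩ := Set.exists_max_image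
        ({p : ℝ × ℝ | (Gap X p.1 p.2 ∧ δ i ≤ p.2 - p.1) ∧ x ≤ p.1 ∧ p.2 ≤ u}) (fun p => p.2)
        (hfin.subset fun p hp => hp.1) ⟨(s0, t0), ⟨hg0, hdd0⟩, hxs0, htu⟩
      simp only at hgst hdst hxs' htu' hmx
      have hStu : Same X i t u := by
        intro a b hab hdab h1 h2
        rw [min_eq_left htu'] at h1
        rw [max_eq_right htu'] at h2
        have := hmx (a, b) ⟨⟨hab, hdab⟩, le_trans (le_trans hxs' hgst.2.2.1.le) h1, h2⟩
        simp only at this
        have := hab.2.2.1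
        linarith
      apply hno
      refine ⟨(s, t), ⟨hgst, le_trans (dlt_anti hij.le) hdst, ?_⟩, hxs',
        le_trans htu' (le_trans hg.2.2.1.le hvy)⟩
      intro i' hi' hsi'
      simp only at hsi' ⊢
      rcases lt_or_ge i' i with h | h
      · by_contra hlt'
        push Not at hlt'
        apply hmin i' h
        have hst : Same X i' s t := by
          intro a b hab hdab h1 h2
          rw [min_eq_left hgst.2.2.1.le] at h1
          rw [max_eq_right hgst.2.2.1.le] at h2
          linarith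
        have htu2 : Same X i' t u := hmono t u i' h.le hStu
        have hsu : Same X i' s u := (hSame X i').2.1 s t u hgst.2.1 hst htu2
        exact (hA X i').2 s u hsi' hu hsu
      · exact le_trans (dlt_anti h) hdst
  · rintro (hS | ⟨i, hij, hxi, hS⟩) ⟨p, hp, h1, h2⟩
    · refine hS p.1 p.2 hp.1 hp.2.1 ?_ ?_
      · rw [min_eq_left hxy]; exact h1
      · rw [max_eq_right hxy]; exact h2
    · have hpp : p.1 < p.2 := hp.1.2.2.1
      have hSp : Same X i x p.1 := (hSame X i).2.2.1 x y x p.1 hS le_rfl h1 (le_trans hpp.le h2)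
      have hpA : p.1 ∈ A X i := (hA X i).2 x p.1 hxi hp.1.1 hSp
      have hd := hp.2.2 i hij hpA
      refine hS p.1 p.2 hp.1 hd ?_ ?_
      · rw [min_eq_left hxy]; exact h1
      · rw [max_eq_right hxy]; exact h2

end Q24.TS
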