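import Pool.Agent.Q24.TS.Stmts

set_option autoImplicit false

namespace Q24.TS

open Set Filter Topology

lemma f0_h01 (X : Set ℝ) (j : ℕ) (x : ℝ) : 0 ≤ h X j x ∧ h X j x ≤ 1 := by
  unfold h
  split_ifs with hx
  · exact ⟨le_refl _, zero_le_one⟩
  · exact ⟨le_max_left _ _, max_le zero_le_one (min_le_left _ _)⟩

theorem taskF0 (hSame : TaskSame) (hA : TaskA) (hBl : TaskBlocks) (hComp : TaskComp) (hQ : TaskQ) :
    TaskF0 := by
  intro hFin hN hH hCont X hX W r hw
  have h01 := f0_h01 X
  have hmonoH := fun j => (hH hSame hA hFin hN hBl hComp hQ X hX j).2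
  have hn := hN hFin X hX
  have hc := hCont hSame hA hFin hN hBl hComp hQ X hX
  have hnn : ∀ j, ∀ x ∈ X, (n X j x : ℝ) ≤ ((Used X j).ncard : ℝ) := fun j x hx => by
    exact_mod_cast (hn j x x hx hx le_rfl).2.1
  have hL0 : ∀ j, ∀ x, 0 ≤ 2 * (n X j x : ℝ) + h X j x := fun j x => by
    have h1 := (h01 j x).1
    have h2 : (0 : ℝ) ≤ n X j x := Nat.cast_nonneg _
    linarith
  have hL1 : ∀ j, ∀ x ∈ X, 2 * (n X j x : ℝ) + h X j x ≤ NN X j := fun j x hx => by
    have h1 := (h01 j x).2
    have h2 := hnn j x hx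
    unfold NN
    linarith
  have hLm : ∀ j, ∀ x ∈ X, ∀ y ∈ X, x ≤ y →
      2 * (n X j x : ℝ) + h X j x ≤ 2 * (n X j y : ℝ) + h X j y := by
    intro j x hx y hy hxy
    rcases (hn j x y hx hy hxy).1.lt_or_eq with hlt | heq
    · have h1 : (n X j x : ℝ) + 1 ≤ n X j y := by exact_mod_cast hlt
      have h2 := (h01 j x).2
      have h3 := (h01 j y).1
      linarith
    · have h1 := hmonoH j x y hx hy hxy heq
      rw [heq]
      linarith
  have hs0 : ∀ x ∈ X, Summable fun j => W j * (2 * (n X j x : ℝ) + h X j x) := fun x hx =>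
    Summable.of_nonneg_of_le (fun j => mul_nonneg (hw.Wpos j).le (hL0 j x))
      (fun j => mul_le_mul_of_nonneg_left (hL1 j x hx) (hw.Wpos j).le) hw.sW
  have hsr : ∀ x, Summable fun i => r i * h X i x := fun x =>
    Summable.of_nonneg_of_le (fun j => mul_nonneg (hw.rpos j).le (h01 j x).1)
      (fun j => mul_le_of_le_one_right (hw.rpos j).le (h01 j x).2) hw.sr
  have hcf0 : ContinuousOn (f0 X W) X := by
    unfold f0
    refine continuousOn_tsum (fun j => ?_) hw.sW fun j x hx => ?_
    · exact continuousOn_const.mul ((continuousOn_const.mul (hc j).1).add (hc j).2)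
    · rw [Real.norm_eq_abs, abs_of_nonneg (mul_nonneg (hw.Wpos j).le (hL0 j x))]
      exact mul_le_mul_of_nonneg_left (hL1 j x hx) (hw.Wpos j).le
  have hcr : ContinuousOn (fun x => ∑' i, r i * h X i x) X := by
    refine continuousOn_tsum (fun j => ?_) hw.sr fun j x hx => ?_
    · exact continuousOn_const.mul (hc j).2
    · rw [Real.norm_eq_abs, abs_of_nonneg (mul_nonneg (hw.rpos j).le (h01 j x).1)]
      exact mul_le_of_le_one_right (hw.rpos j).le (h01 j x).2
  refine ⟨hs0, hsr, hcf0, ?_, ?_, ?_, ?_, ?_, ?_⟩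
  · intro k
    unfold fk
    exact hcf0.add (continuousOn_finset_sum _ fun i _ => continuousOn_const.mul (hc i).2)
  · unfold finf
    exact hcf0.add hcr
  · intro k x hx
    have h1 := (hsr x).sum_add_tsum_nat_add k
    have h2 : finf X W r x - fk X W r k x = ∑' i, r (i + k) * h X (i + k) x := by
      unfold finf fk
      rw [← h1]
      ring
    rw [h2]
    have hs' : Summable fun i => r (i + k) * h X (i + k) x := (summable_nat_add_iff k).2 (hsr x)
    have hs'' : Summable fun i => r (k + i) := by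
      have := (summable_nat_add_iff k).2 hw.sr
      simpa [add_comm] using this
    rw [abs_of_nonneg (tsum_nonneg fun i => mul_nonneg (hw.rpos _).le (h01 _ x).1)]
    refine hs'.tsum_le_tsum (fun i => ?_) hs''
    rw [add_comm k i]
    exact mul_le_of_le_one_right (hw.rpos _).le (h01 _ x).2
  · intro x hx y hy hxy
    exact (hs0 x hx).tsum_le_tsum
      (fun j => mul_le_mul_of_nonneg_left (hLm j x hx y hy hxy) (hw.Wpos j).le) (hs0 y hy)
  · intro x hx y hy hxy k hk
    have h1 := (hs0 x hx).sum_add_tsum_nat_add (k + 1)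
    have h2 := (hs0 y hy).sum_add_tsum_nat_add (k + 1)
    have h3 : ∑ j ∈ Finset.range (k + 1), W j * (2 * (n X j x : ℝ) + h X j x) =
        ∑ j ∈ Finset.range (k + 1), W j * (2 * (n X j y : ℝ) + h X j y) := by
      refine Finset.sum_congr rfl fun j hj => ?_
      obtain ⟨e1, e2⟩ := hk j (Nat.lt_succ_iff.1 (Finset.mem_range.1 hj))
      rw [e1, e2]
    have h4 : ∑' j, W (j + (k + 1)) * (2 * (n X (j + (k + 1)) y : ℝ) + h X (j + (k + 1)) y) ≤ r k := by
      refine le_trans ?_ (hw.Wr k)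
      have hsN : Summable fun i => W (k + 1 + i) * NN X (k + 1 + i) := by
        have := (summable_nat_add_iff (k + 1)).2 hw.sW
        simpa [add_comm] using this
      refine ((summable_nat_add_iff (k + 1)).2 (hs0 y hy)).tsum_le_tsum (fun i => ?_) hsN
      rw [add_comm (k + 1) i]
      exact mul_le_mul_of_nonneg_left (hL1 _ y hy) (hw.Wpos _).le
    have h5 : 0 ≤ ∑' j, W (j + (k + 1)) * (2 * (n X (j + (k + 1)) x : ℝ) + h X (j + (k + 1)) x) :=
      tsum_nonneg fun j => mul_nonneg (hw.Wpos _).le (hL0 _ x)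
    unfold f0
    rw [← h1, ← h2, h3]
    linarith
  · intro x hx y hy hxy k hk hkx hky
    have hd : Summable fun j => W j * (2 * (n X j y : ℝ) + h X j y) -
        W j * (2 * (n X j x : ℝ) + h X j x) := (hs0 y hy).sub (hs0 x hx)
    have h1 : W k * (2 * (n X k y : ℝ) + h X k y) - W k * (2 * (n X k x : ℝ) + h X k x) ≤
        ∑' j, (W j * (2 * (n X j y : ℝ) + h X j y) - W j * (2 * (n X j x : ℝ) + h X j x)) :=
      hd.le_tsum k fun j _ => sub_nonneg.2
        (mul_le_mul_of_nonneg_left (hLm j x hx y hy hxy) (hw.Wpos j).le)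
    rw [(hs0 y hy).tsum_sub (hs0 x hx), hk, hkx, hky] at h1
    unfold f0
    linarith

end Q24.TS
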