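import Pool.Agent.Q24.TS.Stmts

set_option autoImplicit false

/-! Glueing the homeomorphisms of the Cantor blocks. -/

namespace Q24.TS

open Set Filter Topology

namespace GlueAux

lemma phi_spec {B C : Set ℝ} (h : Nonempty (B ≃ₜ C)) : ∃ φ : ℝ → ℝ, (∀ y ∈ B, φ y ∈ C) ∧
    InjOn φ B ∧ (∀ z ∈ C, ∃ y ∈ B, φ y = z) ∧ ContinuousOn φ B := by
  classical
  obtain ⟨e⟩ := h
  let φ : ℝ → ℝ := fun y => if hy : y ∈ B then (e ⟨y, hy⟩ : ℝ) else 0
  have hφ : ∀ (y : ℝ) (hy : y ∈ B), φ y = e ⟨y, hy⟩ := fun y hy => dif_pos hy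
  refine ⟨φ, ?_, ?_, ?_, ?_⟩
  · intro y hy
    rw [hφ y hy]
    exact (e ⟨y, hy⟩).2
  · intro y hy y' hy' h
    rw [hφ y hy, hφ y' hy'] at h
    have h1 := e.injective (Subtype.ext h)
    exact congrArg Subtype.val h1
  · intro z hz
    refine ⟨(e.symm ⟨z, hz⟩ : ℝ), (e.symm ⟨z, hz⟩).2, ?_⟩
    rw [hφ _ (e.symm ⟨z, hz⟩).2]
    simp
  · rw [continuousOn_iff_continuous_domRestrict]
    have h1 : B.domRestrict φ = fun y : B => (e y : ℝ) := by
      funext y
      exact hφ y.1 y.2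
    rw [h1]
    exact continuous_subtype_val.comp e.continuous

lemma delta_pos (j : ℕ) : 0 < δ j := by
  unfold δ
  positivity

lemma tail_le {r : ℕ → ℝ} (hr : ∀ j, 0 < r j) (hs : Summable r) {k s : ℕ} (h : k ≤ s) :
    ∑' i, r (s + i) ≤ ∑' i, r (k + i) := by
  obtain ⟨m, rfl⟩ := Nat.exists_eq_add_of_le h
  have h1 : Summable fun i => r (k + i) := by
    have := (summable_nat_add_iff k).2 hs
    simpa [add_comm] using this
  have h2 := tsum_comp_le_tsum_of_inj h1 (fun i => (hr _).le) (i := fun i => m + i)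
    (fun a b hab => by simpa using hab)
  have h3 : ((fun i => r (k + i)) ∘ fun i => m + i) = fun i => r (k + m + i) := by
    funext i
    show r (k + (m + i)) = r (k + m + i)
    rw [add_assoc]
  rw [h3] at h2
  exact h2

end GlueAux

open GlueAux

theorem taskGlue : TaskGlue := by
  intro hSame hA X hX r F hr hsum hF hblk hRS hconst hsep
  classical
  obtain ⟨hXc, hXne, hXp⟩ := hX
  have hsy : ∀ j x y, Same X j x y → Same X j y x := fun j => (hSame X j).1
  have htr : ∀ j x y z, y ∈ X → Same X j x y → Same X j y z → Same X j x z :=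
    fun j => (hSame X j).2.1
  have hmo : ∀ j x y i, i ≤ j → Same X j x y → Same X i x y := fun j => (hSame X j).2.2.2.1
  have hnear : ∀ j x y, |x - y| < δ j → Same X j x y := fun j => (hSame X j).2.2.2.2.1
  have hamo : ∀ i j, i ≤ j → A X i ⊆ A X j := fun i j h => (hA X j).1 i h
  have habl : ∀ j x y, x ∈ A X j → y ∈ X → Same X j x y → y ∈ A X j := fun j => (hA X j).2
  have hrefl : ∀ j x, Same X j x x := fun j x => hnear j x x (by simpa using delta_pos j)
  let AA : Set ℝ := {x | ∃ k, x ∈ A X k}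
  let s : ℝ → ℕ := fun x => sInf {k | x ∈ A X k}
  have hs : ∀ x, x ∈ AA → x ∈ A X (s x) := fun x hx => Nat.sInf_mem hx
  have hsle : ∀ x k, x ∈ A X k → s x ≤ k := fun x k hk => Nat.sInf_le hk
  let B : ℝ → Set ℝ := fun x => {y | y ∈ X ∧ Same X (s x) x y}
  have hself : ∀ x ∈ X, x ∈ B x := fun x hx => ⟨hx, hrefl _ _⟩
  have hBs : ∀ x, x ∈ AA → ∀ y ∈ B x, y ∈ AA ∧ s y = s x ∧ B y = B x := by
    intro x hx y hy
    have h1 : y ∈ A X (s x) := habl _ _ _ (hs x hx) hy.1 hy.2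
    have h2 : y ∈ AA := ⟨_, h1⟩
    have h3 : s y ≤ s x := hsle _ _ h1
    have h4 : s x ≤ s y := by
      have h5 : Same X (s y) y x := hsy _ _ _ (hmo _ _ _ _ h3 hy.2)
      exact hsle _ _ (habl _ _ _ (hs y h2) (hs x hx).1 h5)
    have h6 : s y = s x := le_antisymm h3 h4
    refine ⟨h2, h6, ?_⟩
    ext z
    constructor
    · rintro ⟨hz, hz2⟩
      rw [h6] at hz2
      exact ⟨hz, htr _ _ _ _ hy.1 hy.2 hz2⟩
    · rintro ⟨hz, hz2⟩
      refine ⟨hz, ?_⟩
      rw [h6]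
      exact htr _ _ _ _ (hs x hx).1 (hsy _ _ _ hy.2) hz2
  have hex : ∀ (D : Set ℝ) (k : ℕ), ∃ φ : ℝ → ℝ, Nonempty (D ≃ₜ RS r k) →
      ((∀ y ∈ D, φ y ∈ RS r k) ∧ InjOn φ D ∧ (∀ z ∈ RS r k, ∃ y ∈ D, φ y = z) ∧
        ContinuousOn φ D) := by
    intro D k
    by_cases h : Nonempty (D ≃ₜ RS r k)
    · obtain ⟨φ, hφ⟩ := phi_spec h
      exact ⟨φ, fun _ => hφ⟩
    · exact ⟨fun _ => 0, fun h' => absurd h' h⟩
  choose Φ hΦ using hex
  have hhomeo : ∀ x, x ∈ AA → Nonempty (B x ≃ₜ RS r (s x)) := by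
    intro x hx
    obtain ⟨-, ⟨e1⟩⟩ := hblk (s x) x (hs x hx)
    obtain ⟨e2⟩ := (hRS (s x)).1
    exact ⟨e1.trans e2.symm⟩
  let g : ℝ → ℝ := fun x => if x ∈ AA then F x + Φ (B x) (s x) x else F x
  have hg1 : ∀ x, x ∈ AA → g x = F x + Φ (B x) (s x) x := fun x hx => if_pos hx
  have hg0 : ∀ x, x ∉ AA → g x = F x := fun x hx => if_neg hx
  have hgB : ∀ x, x ∈ AA → ∀ y ∈ B x, g y = F y + Φ (B x) (s x) y := by
    intro x hx y hy
    obtain ⟨h1, h2, h3⟩ := hBs x hx y hy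
    rw [hg1 y h1, h2, h3]
  have hmemRS : ∀ x, x ∈ AA → Φ (B x) (s x) x ∈ RS r (s x) := fun x hx =>
    (hΦ _ _ (hhomeo x hx)).1 x (hself x (hs x hx).1)
  -- coins
  have hcoin1 : ∀ x, x ∈ AA → ∀ ε, Coin X x ε → ∑' i, ε i * r i ∈ RS r (s x) := by
    intro x hx ε hε
    refine ⟨ε, fun i => (hε i).imp id And.left, fun i hi => ?_, rfl⟩
    rcases hε i with h | ⟨-, h⟩
    · exact h
    · exact absurd (hsle _ _ h) (by omega)
  have hcoin2 : ∀ x, x ∈ AA → ∀ z ∈ RS r (s x), ∃ ε, Coin X x ε ∧ z = ∑' i, ε i * r i := by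
    rintro x hx z ⟨ε, hε, hε0, rfl⟩
    refine ⟨ε, fun i => ?_, rfl⟩
    rcases hε i with h | h
    · exact Or.inl h
    · refine Or.inr ⟨h, ?_⟩
      by_cases hi : i < s x
      · rw [hε0 i hi] at h
        exact absurd h (by norm_num)
      · exact hamo _ _ (by omega) (hs x hx)
  have hcoin0 : ∀ x, x ∉ AA → ∀ ε, Coin X x ε → ∑' i, ε i * r i = 0 := by
    intro x hx ε hε
    have h1 : ∀ i, ε i * r i = 0 := by
      intro i
      rcases hε i with h | ⟨-, h⟩
      · rw [h, zero_mul]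
      · exact absurd ⟨i, h⟩ hx
    simp [h1]
  have hzero : ∀ x, Coin X x (fun _ => 0) := fun x i => Or.inl rfl
  have hge : ∀ y ∈ X, F y ≤ g y := by
    intro y _
    by_cases h : y ∈ AA
    · rw [hg1 y h]
      have := ((hRS (s y)).2 _ (hmemRS y h)).1
      linarith
    · rw [hg0 y h]
  have hmaps : ∀ x ∈ X, g x ∈ {y | ∃ x ∈ X, ∃ ε, Coin X x ε ∧ y = F x + ∑' i, ε i * r i} := by
    intro x hx
    by_cases h : x ∈ AA
    · obtain ⟨ε, hε, hε2⟩ := hcoin2 x h _ (hmemRS x h)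
      exact ⟨x, hx, ε, hε, by rw [hg1 x h, hε2]⟩
    · refine ⟨x, hx, fun _ => 0, hzero x, ?_⟩
      rw [hg0 x h]
      simp
  let T : Set ℝ := {y | ∃ x ∈ X, ∃ ε, Coin X x ε ∧ y = F x + ∑' i, ε i * r i}
  have hsurj : ∀ y ∈ T, ∃ x ∈ X, g x = y := by
    rintro y ⟨x, hx, ε, hε, rfl⟩
    by_cases h : x ∈ AA
    · obtain ⟨z, hz, hz2⟩ := (hΦ _ _ (hhomeo x h)).2.2.1 _ (hcoin1 x h ε hε)
      refine ⟨z, hz.1, ?_⟩
      rw [hgB x h z hz, hz2, hconst (s x) x z (hs x h) hz.1 hz.2]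
    · refine ⟨x, hx, ?_⟩
      rw [hg0 x h, hcoin0 x h ε hε, add_zero]
  have hlt : ∀ x ∈ X, ∀ y ∈ X, x < y → g x ≠ g y := by
    intro x hx y hy hxy
    rcases hsep x y hx hy hxy with ⟨k, hk, hk2⟩ | h
    · have h1 : x ∈ AA := ⟨k, hk⟩
      have h2 : y ∈ B x := ⟨hy, hmo _ _ _ _ (hsle _ _ hk) hk2⟩
      intro h3
      rw [hgB x h1 x (hself x hx), hgB x h1 y h2, hconst k x y hk hy hk2] at h3
      have h4 := (hΦ _ _ (hhomeo x h1)).2.1 (hself x hx) h2 (by linarith)
      exact hxy.ne h4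
    · have h1 : g x < F y := by
        by_cases hx' : x ∈ AA
        · obtain ⟨ε, hε, hε2⟩ := hcoin2 x hx' _ (hmemRS x hx')
          rw [hg1 x hx', hε2]
          exact h ε hε
        · rw [hg0 x hx']
          have := h (fun _ => 0) (hzero x)
          simpa using this
      exact (h1.trans_le (hge y hy)).ne
  have hinj : ∀ x ∈ X, ∀ y ∈ X, g x = g y → x = y := by
    intro x hx y hy h
    rcases lt_trichotomy x y with h1 | h1 | h1
    · exact absurd h (hlt x hx y hy h1)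
    · exact h1
    · exact absurd h.symm (hlt y hy x hx h1)
  have hcont : ContinuousOn g X := by
    intro x hx
    by_cases h : x ∈ AA
    · have hB : B x ∈ 𝓝[X] x := by
        rw [Metric.mem_nhdsWithin_iff]
        refine ⟨δ (s x), delta_pos _, ?_⟩
        rintro y ⟨hy, hyX⟩
        refine ⟨hyX, hnear _ _ _ ?_⟩
        rw [abs_sub_comm]
        exact hy
      have h1 : ContinuousWithinAt (fun y => F y + Φ (B x) (s x) y) (B x) x := by
        refine ContinuousWithinAt.add ((hF x hx).mono fun y hy => hy.1) ?_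
        exact (hΦ _ _ (hhomeo x h)).2.2.2 x (hself x hx)
      have h2 : ContinuousWithinAt g (B x) x :=
        h1.congr (fun y hy => hgB x h y hy) (hgB x h x (hself x hx))
      exact h2.mono_of_mem_nhdsWithin hB
    · rw [Metric.continuousWithinAt_iff]
      intro ε hε
      obtain ⟨d, hd, hd2⟩ := Metric.continuousWithinAt_iff.1 (hF x hx) (ε / 2) (by linarith)
      have htail : Tendsto (fun k => ∑' i, r (i + k)) atTop (𝓝 0) := tendsto_sum_nat_add r
      obtain ⟨k, hk⟩ := (htail.eventually (gt_mem_nhds (show (0 : ℝ) < ε / 2 by linarith))).exists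
      have hk' : ∑' i, r (k + i) < ε / 2 := by
        simpa [add_comm] using hk
      refine ⟨min d (δ k), lt_min hd (delta_pos k), fun y hy hyd => ?_⟩
      have hy1 := hd2 hy (lt_of_lt_of_le hyd (min_le_left _ _))
      have hy2 : |y - x| < δ k := lt_of_lt_of_le hyd (min_le_right _ _)
      rw [hg0 x h]
      by_cases hyA : y ∈ AA
      · rw [hg1 y hyA]
        have hsk : k ≤ s y := by
          by_contra hcon
          have h1 : y ∈ A X k := hamo _ _ (by omega) (hs y hyA)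
          exact h ⟨k, habl _ _ _ h1 hx (hnear _ _ _ hy2)⟩
        obtain ⟨h1, h2⟩ := (hRS (s y)).2 _ (hmemRS y hyA)
        have h3 := tail_le hr hsum hsk
        rw [Real.dist_eq] at hy1 ⊢
        rw [abs_lt] at hy1 ⊢
        constructor <;> linarith [hy1.1, hy1.2]
      · rw [hg0 y hyA]
        linarith
  haveI : CompactSpace X := isCompact_iff_compactSpace.1 hXc
  let f : X → T := fun x => ⟨g x, hmaps x x.2⟩
  have hf : Function.Bijective f := by
    constructor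
    · intro x y hxy
      exact Subtype.ext (hinj x x.2 y y.2 (congrArg Subtype.val hxy))
    · rintro ⟨y, hy⟩
      obtain ⟨x, hx, hxy⟩ := hsurj y hy
      exact ⟨⟨x, hx⟩, Subtype.ext hxy⟩
  have hfc : Continuous f := by
    refine Continuous.subtype_mk ?_ _
    exact continuousOn_iff_continuous_domRestrict.1 hcont
  exact ⟨Continuous.homeoOfEquivCompactToT2 (f := Equiv.ofBijective f hf) hfc⟩

end Q24.TS
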