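import Pool.Agent.Q24.TS.Stmts

set_option autoImplicit false

namespace Q24.TS

open Set Filter Topology

private theorem core (X : Set ℝ) (hX : IsCompact X) (r : ℕ → ℝ) (hr0 : ∀ i, 0 < r i)
    (hr : Summable r) (F : ℕ → ℝ → ℝ) (G : ℝ → ℝ) (τ : ℕ → ℝ) (hτ : Tendsto τ atTop (𝓝 0))
    (hFG : ∀ k, ∀ x ∈ X, |G x - F k x| ≤ τ k) (hG : ContinuousOn G X)
    (x : ℕ → ℝ) (hx : ∀ k, x k ∈ X) (ε : ℕ → ℕ → ℝ) (hε : ∀ k, Coin0 (ε k))
    (y : ℕ → ℝ) (hy : ∀ k, y k = F k (x k) + ∑ i ∈ Finset.range k, ε k i * r i)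
    (y0 : ℝ) (hy0 : Tendsto y atTop (𝓝 y0)) :
    ∃ x' ∈ X, ∃ ε', Coin0 ε' ∧ y0 = G x' + ∑' i, ε' i * r i ∧
      ∃ U : Filter ℕ, U.NeBot ∧ U ≤ atTop ∧ Tendsto x U (𝓝 x') ∧ ∀ i, ∀ᶠ k in U, ε k i = ε' i := by
  classical
  set U : Ultrafilter ℕ := Ultrafilter.of atTop with hU
  have hUle : (U : Filter ℕ) ≤ atTop := Ultrafilter.of_le atTop
  obtain ⟨x', hx', hxt⟩ : ∃ x' ∈ X, Tendsto x U (𝓝 x') := by
    have h1 : ((U.map x : Ultrafilter ℝ) : Filter ℝ) ≤ 𝓟 X := by
      rw [le_principal_iff]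
      exact Filter.mem_map.2 (Filter.Eventually.of_forall hx)
    obtain ⟨a, ha, hle⟩ := hX.ultrafilter_le_nhds (U.map x) h1
    exact ⟨a, ha, hle⟩
  have hcoin : ∀ i, ∃ e : ℝ, (e = 0 ∨ e = 1) ∧ ∀ᶠ k in (U : Filter ℕ), ε k i = e := by
    intro i
    have : ∀ᶠ k in (U : Filter ℕ), ε k i = 0 ∨ ε k i = 1 :=
      Filter.Eventually.of_forall fun k => hε k i
    rcases Ultrafilter.eventually_or.1 this with h | h
    · exact ⟨0, Or.inl rfl, h⟩
    · exact ⟨1, Or.inr rfl, h⟩
  choose ε' hε' hev using hcoin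
  refine ⟨x', hx', ε', hε', ?_, (U : Filter ℕ), inferInstance, hUle, hxt, hev⟩
  have hyU : Tendsto y U (𝓝 y0) := hy0.mono_left hUle
  have hGx : Tendsto (fun k => G (x k)) U (𝓝 (G x')) := by
    have h1 : Tendsto x U (𝓝[X] x') :=
      tendsto_nhdsWithin_iff.2 ⟨hxt, Filter.Eventually.of_forall hx⟩
    exact (hG x' hx').tendsto.comp h1
  have hFx : Tendsto (fun k => F k (x k)) U (𝓝 (G x')) := by
    have hd : Tendsto (fun k => G (x k) - F k (x k)) U (𝓝 0) := by
      apply squeeze_zero_norm (a := τ)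
      · intro k
        rw [Real.norm_eq_abs]
        exact hFG k _ (hx k)
      · exact hτ.mono_left hUle
    have := hGx.sub hd
    simpa using this
  have hS : Tendsto (fun k => ∑ i ∈ Finset.range k, ε k i * r i) U (𝓝 (∑' i, ε' i * r i)) := by
    have h1 : Tendsto (fun k => ∑' i, (if i < k then ε k i * r i else 0)) U
        (𝓝 (∑' i, ε' i * r i)) := by
      apply tendsto_tsum_of_dominated_convergence (bound := r) hr
      · intro i
        have h2 : ∀ᶠ k in (U : Filter ℕ), (if i < k then ε k i * r i else 0) = ε' i * r i := by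
          filter_upwards [hev i, hUle (eventually_gt_atTop i)] with k h3 h4
          rw [if_pos h4, h3]
        exact (tendsto_congr' h2).2 tendsto_const_nhds
      · refine Filter.Eventually.of_forall fun k i => ?_
        by_cases h : i < k
        · rw [if_pos h]
          rcases hε k i with h2 | h2 <;> rw [h2]
          · simpa using (hr0 i).le
          · rw [one_mul, Real.norm_eq_abs, abs_of_pos (hr0 i)]
        · rw [if_neg h]
          simpa using (hr0 i).le
    refine h1.congr fun k => ?_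
    rw [tsum_eq_sum (s := Finset.range k)]
    · exact Finset.sum_congr rfl fun i hi => if_pos (Finset.mem_range.1 hi)
    · intro i hi
      exact if_neg fun h => hi (Finset.mem_range.2 h)
  have hlim : Tendsto y U (𝓝 (G x' + ∑' i, ε' i * r i)) := by
    refine (hFx.add hS).congr fun k => ?_
    rw [hy k]
  exact tendsto_nhds_unique hyU hlim

theorem taskLimit : TaskLimit := by
  intro hSame hA hF0 hFin hN hH hCont X hX W r hW hst
  obtain ⟨-, -, hc0, hck, hcinf, htail, -, -, -⟩ := hF0 hFin hN hH hCont X hX W r hW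
  have hτ : Tendsto (fun k => ∑' i, r (k + i)) atTop (𝓝 0) := by
    have := tendsto_sum_nat_add r
    refine this.congr fun k => ?_
    exact tsum_congr fun i => by rw [add_comm]
  have hsummable : ∀ ε : ℕ → ℝ, Coin0 ε → Summable fun i => ε i * r i := by
    intro ε hε
    refine Summable.of_norm_bounded hW.sr fun i => ?_
    rcases hε i with h | h <;> rw [h]
    · simpa using (hW.rpos i).le
    · rw [one_mul, Real.norm_eq_abs, abs_of_pos (hW.rpos i)]
  ext y
  constructor
  · rintro ⟨x, hx, ε, hε, rfl⟩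
    have hε0 : Coin0 ε := fun i => (hε i).imp id fun h => h.1
    have hk : ∀ k, ∃ x' ∈ X, ∃ ε', Coin0 ε' ∧
        fk X W r k x + ∑ i ∈ Finset.range k, ε i * r i =
          f0 X W x' + ∑ i ∈ Finset.range k, ε' i * r i := by
      intro k
      have : fk X W r k x + ∑ i ∈ Finset.range k, ε i * r i ∈
          {y | ∃ x ∈ X, ∃ ε, Coin X x ε ∧ y = fk X W r k x + ∑ i ∈ Finset.range k, ε i * r i} :=
        ⟨x, hx, ε, hε, rfl⟩
      rw [hst k] at this
      exact this
    choose xs hxs εs hεs hys using hk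
    have hy0 : Tendsto (fun k => fk X W r k x + ∑ i ∈ Finset.range k, ε i * r i) atTop
        (𝓝 (finf X W r x + ∑' i, ε i * r i)) := by
      refine Tendsto.add ?_ (hsummable ε hε0).hasSum.tendsto_sum_nat
      have hd : Tendsto (fun k => finf X W r x - fk X W r k x) atTop (𝓝 0) := by
        apply squeeze_zero_norm (a := fun k => ∑' i, r (k + i)) _ hτ
        intro k
        rw [Real.norm_eq_abs]
        exact htail k x hx
      have := (tendsto_const_nhds (x := finf X W r x)).sub hd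
      simpa using this
    obtain ⟨x', hx', ε', hε', he, -⟩ := core X hX.1 r hW.rpos hW.sr (fun _ => f0 X W) (f0 X W)
      (fun _ => 0) tendsto_const_nhds (fun k x _ => by simp) hc0 xs hxs εs hεs _ hys _ hy0
    exact ⟨x', hx', ε', hε', he⟩
  · rintro ⟨x, hx, ε, hε, rfl⟩
    have hk : ∀ k, ∃ x' ∈ X, ∃ ε', Coin X x' ε' ∧
        f0 X W x + ∑ i ∈ Finset.range k, ε i * r i =
          fk X W r k x' + ∑ i ∈ Finset.range k, ε' i * r i := by
      intro k
      have : f0 X W x + ∑ i ∈ Finset.range k, ε i * r i ∈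
          {y | ∃ x ∈ X, ∃ ε, Coin0 ε ∧ y = f0 X W x + ∑ i ∈ Finset.range k, ε i * r i} :=
        ⟨x, hx, ε, hε, rfl⟩
      rw [← hst k] at this
      exact this
    choose xs hxs εs hεs hys using hk
    have hy0 : Tendsto (fun k => f0 X W x + ∑ i ∈ Finset.range k, ε i * r i) atTop
        (𝓝 (f0 X W x + ∑' i, ε i * r i)) :=
      Tendsto.add tendsto_const_nhds (hsummable ε hε).hasSum.tendsto_sum_nat
    obtain ⟨x', hx', ε', hε', he, U, hUn, hUle, hxt, hev⟩ := core X hX.1 r hW.rpos hW.sr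
      (fun k => fk X W r k) (finf X W r) (fun k => ∑' i, r (k + i)) hτ (fun k x hx => htail k x hx)
      hcinf xs hxs εs (fun k i => (hεs k i).imp id fun h => h.1) _ hys _ hy0
    refine ⟨x', hx', ε', fun i => ?_, he⟩
    rcases hε' i with h0 | h1
    · exact Or.inl h0
    · refine Or.inr ⟨h1, ?_⟩
      have hδ : (0 : ℝ) < δ i := by
        unfold δ
        positivity
      have h2 : ∀ᶠ k in U, |xs k - x'| < δ i := by
        have := Metric.tendsto_nhds.1 hxt (δ i) hδ
        exact this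
      obtain ⟨k, hk1, hk2⟩ := (h2.and (hev i)).exists
      have h3 : xs k ∈ A X i := by
        rcases hεs k i with h | h
        · rw [hk2, h1] at h
          exact absurd h one_ne_zero
        · exact h.2
      have hS := hSame X i
      exact (hA X i).2 (xs k) x' h3 hx' (hS.2.2.2.2.1 _ _ hk1)

end Q24.TS
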