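import Pool.Agent.Q24.TS.Stmts

set_option autoImplicit false

namespace Q24.TS

open Set Filter Topology

theorem taskSCompact : TaskSCompact := by
  intro K hK
  have hb : ∀ i, ∀ x ∈ K i, ‖x‖ ≤ Metric.diam (K i) := by
    intro i x hx
    have h := Metric.dist_le_diam_of_mem (hK.compact i).isBounded hx (hK.zero i)
    rwa [Real.dist_eq, sub_zero] at h
  have hs : ∀ x : ℕ → ℝ, (∀ j, x j ∈ K j) → Summable x := fun x hx =>
    Summable.of_norm_bounded hK.summable fun i => hb i _ (hx i)
  have himg : Sums K = (fun x : ℕ → ℝ => ∑' j, x j) '' Set.pi univ K := by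
    ext y
    constructor
    · rintro ⟨x, hx, hy⟩
      exact ⟨x, fun j _ => hx j, hy.tsum_eq⟩
    · rintro ⟨x, hx, rfl⟩
      exact ⟨x, fun j => hx j (mem_univ j), (hs x fun j => hx j (mem_univ j)).hasSum⟩
  have hc : ContinuousOn (fun x : ℕ → ℝ => ∑' j, x j) (Set.pi univ K) :=
    continuousOn_tsum (fun i => (continuous_apply i).continuousOn) hK.summable
      fun i x hx => hb i _ (hx i (mem_univ i))
  refine ⟨?_, ?_⟩
  · rw [himg]
    exact (isCompact_univ_pi hK.compact).image_of_continuousOn hc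
  · exact ⟨0, fun _ => 0, fun j => hK.zero j, hasSum_zero⟩

end Q24.TS
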