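import Pool.Agent.Q24.TS.Stmts

/-!
Basic facts on `Same` (blueprint of helper24 for MP_8027ba_an).
-/

set_option autoImplicit false

namespace Q24.TS

open Set

theorem taskSame : TaskSame := by
  intro X j
  refine ⟨?_, ?_, ?_, ?_, ?_, ?_⟩
  · intro x y h u v hg hd h1 h2
    exact h u v hg hd (by rw [min_comm]; exact h1) (by rw [max_comm]; exact h2)
  · intro x y z hy h1 h2 u v hg hd hmin hmax
    have hcase : y ≤ u ∨ v ≤ y := by
      by_contra hcon
      push Not at hcon
      exact hg.2.2.2 y hcon.1 hcon.2 hy
    rcases hcase with hyu | hvy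
    · rcases le_max_iff.1 hmax with hx | hz
      · exact h1 u v hg hd ((min_le_right _ _).trans hyu) (hx.trans (le_max_left _ _))
      · exact h2 u v hg hd ((min_le_left _ _).trans hyu) (hz.trans (le_max_right _ _))
    · rcases min_le_iff.1 hmin with hx | hz
      · exact h1 u v hg hd ((min_le_left _ _).trans hx) (hvy.trans (le_max_right _ _))
      · exact h2 u v hg hd ((min_le_right _ _).trans hz) (hvy.trans (le_max_left _ _))
  · intro x y s t h hxs hst hty u v hg hd hmin hmax
    rw [min_eq_left hst] at hmin
    rw [max_eq_right hst] at hmax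
    exact h u v hg hd ((min_le_left _ _).trans (hxs.trans hmin))
      (hmax.trans (hty.trans (le_max_right _ _)))
  · intro x y i hij h u v hg hd hmin hmax
    refine h u v hg (le_trans ?_ hd) hmin hmax
    unfold δ
    have : (i : ℝ) ≤ j := by exact_mod_cast hij
    exact one_div_le_one_div_of_le (by positivity) (by linarith)
  · intro x y h u v hg hd hmin hmax
    have := max_sub_min_eq_abs x y
    have h2 := abs_sub_comm x y
    linarith
  · intro x y hxy hsub u v hg hd hmin hmax
    rw [min_eq_left hxy] at hmin
    rw [max_eq_right hxy] at hmax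
    have huv := hg.2.2.1
    exact hg.2.2.2 ((u + v) / 2) (by linarith) (by linarith)
      (hsub ⟨by linarith, by linarith⟩)

end Q24.TS
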