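import Pool.Agent.Q24.TS.Stmts

set_option autoImplicit false

/-! Task `TaskSep` of the blueprint `Q24.TS`. -/

namespace Q24.TS

open Set Filter Topology

theorem sep_gap {X : Set ℝ} (hX : IsCompact X) {x y : ℝ} (hx : x ∈ X) (hy : y ∈ X)
    (hn : ¬ Icc x y ⊆ X) : ∃ u v, Gap X u v ∧ x ≤ u ∧ v ≤ y := by
  obtain ⟨s, hs, hsX⟩ := Set.not_subset.1 hn
  have hc := hX.isClosed
  have h1 : IsCompact (X ∩ Icc x s) := hX.inter_right isClosed_Icc
  have h2 : IsCompact (X ∩ Icc s y) := hX.inter_right isClosed_Icc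
  have n1 : (X ∩ Icc x s).Nonempty := ⟨x, hx, le_refl _, hs.1⟩
  have n2 : (X ∩ Icc s y).Nonempty := ⟨y, hy, hs.2, le_refl _⟩
  have m1 := h1.sSup_mem n1
  have m2 := h2.sInf_mem n2
  set u := sSup (X ∩ Icc x s) with hu
  set v := sInf (X ∩ Icc s y) with hv
  have hus : u < s := lt_of_le_of_ne m1.2.2 (fun e => hsX (e ▸ m1.1))
  have hsv : s < v := lt_of_le_of_ne m2.2.1 (fun e => hsX (e ▸ m2.1))
  refine ⟨u, v, ⟨m1.1, m2.1, hus.trans hsv, fun t h3 h4 ht => ?_⟩, m1.2.1, m2.2.2⟩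
  rcases le_total t s with h5 | h5
  · exact absurd (le_csSup h1.bddAbove ⟨ht, m1.2.1.trans h3.le, h5⟩) (not_le.2 h3)
  · exact absurd (csInf_le h2.bddBelow ⟨ht, h5, h4.le.trans m2.2.2⟩) (not_le.2 h4)

theorem sep_delta {c : ℝ} (hc : 0 < c) : ∃ j, δ j ≤ c := by
  obtain ⟨j, hj⟩ := exists_nat_one_div_lt hc
  exact ⟨j, hj.le⟩

theorem sep_same {X : Set ℝ} (hX : IsCompact X) {x y : ℝ} (hx : x ∈ X) (hy : y ∈ X)
    (hn : ¬ uIcc x y ⊆ X) : ∃ j, ¬ Same X j x y := by
  have hm : min x y ∈ X := by rcases min_choice x y with h | h <;> rw [h] <;> assumption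
  have hM : max x y ∈ X := by rcases max_choice x y with h | h <;> rw [h] <;> assumption
  obtain ⟨u, v, hg, h1, h2⟩ := sep_gap hX hm hM hn
  obtain ⟨j, hj⟩ := sep_delta (sub_pos.2 hg.2.2.1)
  exact ⟨j, fun hs => hs u v hg hj h1 h2⟩

theorem taskSep : TaskSep := by
  intro tSame tA tFin tN tBlocks tComp tQ tH X hX x y hx hy hxy
  have tB := tBlocks tSame tA tFin tN X hX
  have tHH := tH tSame tA tFin tN tBlocks tComp tQ X hX
  have tQQ := tQ tSame tA X hX
  have tCC := tComp X hX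
  by_cases hI : Icc x y ⊆ X
  · right; right
    have hsame : ∀ i s t, x ≤ s → s ≤ t → t ≤ y → Same X i s t := fun i s t h1 h2 h3 =>
      (tSame X i).2.2.2.2.2 s t h2 (fun z hz => hI ⟨h1.trans hz.1, hz.2.trans h3⟩)
    obtain ⟨t, ht1, ht2⟩ := exists_rat_btwn hxy
    have htI : (t : ℝ) ∈ interior X :=
      interior_mono hI (by rw [interior_Icc]; exact ⟨ht1, ht2⟩)
    have hxA : ∀ i, x ∉ A X i := fun i hi => hi.2 t htI (hsame i x t le_rfl ht1.le ht2.le)
    have hyA : ∀ i, y ∉ A X i := fun i hi => hi.2 t htI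
      ((tSame X i).1 _ _ (hsame i t y ht1.le ht2.le le_rfl))
    have hn : ∀ i, n X i x = n X i y := fun i =>
      ((tB i x y hx hy hxy.le).2 (Or.inl (hsame i x y le_rfl hxy.le le_rfl)))
    have hh : ∀ i, h X i x ≤ h X i y := fun i => (tHH i).2 x y hx hy hxy.le (hn i)
    suffices hs : ∃ j, h X j x < h X j y by
      obtain ⟨j, hj⟩ := hs
      exact ⟨j, hj, fun i => ⟨hn i, hh i, hxA i, hyA i⟩⟩
    obtain ⟨k0, hk0⟩ : ∃ k, en k = t := Classical.choose_spec (exists_surjective_nat ℚ) t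
    have hj : ∀ k, ∃ j, ((en k : ℚ) : ℝ) ∈ X → Same X j x (en k) → uIcc x (en k : ℝ) ⊆ X := by
      intro k
      by_cases hk : ((en k : ℚ) : ℝ) ∈ X
      · by_cases hu : uIcc x (en k : ℝ) ⊆ X
        · exact ⟨0, fun _ _ => hu⟩
        · obtain ⟨j, hj⟩ := sep_same hX.1 hx hk hu
          exact ⟨j, fun _ h => absurd h hj⟩
      · exact ⟨0, fun h => absurd h hk⟩
    choose J hJ using hj
    let M := (Finset.range (k0 + 1)).sup J
    refine ⟨M, ?_⟩
    let S : Set ℕ := {k | ((en k : ℚ) : ℝ) ∈ interior X ∧ Same X M x (en k)}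
    have hk0S : k0 ∈ S := by
      refine ⟨?_, ?_⟩
      · rw [hk0]; exact htI
      · rw [hk0]; exact hsame M x t le_rfl ht1.le ht2.le
    have hmem : sInf S ∈ S := Nat.sInf_mem ⟨k0, hk0S⟩
    have hle : sInf S ≤ k0 := Nat.sInf_le hk0S
    have hqd : q X M x = (en (sInf S) : ℝ) := rfl
    have hJle : J (sInf S) ≤ M := Finset.le_sup (f := J) (Finset.mem_range.2 (Nat.lt_succ_of_le hle))
    have hsub : uIcc x (en (sInf S) : ℝ) ⊆ X :=
      hJ _ (interior_subset hmem.1) ((tSame X M).2.2.2.1 _ _ _ hJle hmem.2)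
    obtain ⟨c1, c2, c3, c4⟩ := tCC _ hmem.1
    set p : ℝ := (en (sInf S) : ℝ) with hp
    have hIcc : Icc (min x p) (max y p) ⊆ X := by
      intro z hz
      rcases le_or_gt x z with h1 | h1
      · rcases le_or_gt z y with h2 | h2
        · exact hI ⟨h1, h2⟩
        · have h3 : z ≤ p := by
            rcases max_choice y p with h | h
            · have := hz.2; rw [h] at this; exact absurd this (not_le.2 h2)
            · have := hz.2; rwa [h] at this
          exact hsub ⟨(min_le_left _ _).trans h1, h3.trans (le_max_right _ _)⟩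
      · exact hsub ⟨hz.1, h1.le.trans (le_max_left _ _)⟩
    obtain ⟨d1, d2⟩ := c4 (min x p) (max y p) (min_le_right _ _) (le_max_right _ _) hIcc
    have e1 : cL X p ≤ x := d1.trans (min_le_left _ _)
    have e2 : y ≤ cR X p := (le_max_left _ _).trans d2
    have hlen : 0 < cR X p - cL X p := by linarith
    have hqy : q X M y = q X M x :=
      ((tQQ M x hx (hxA M)).2.2.1 y hy (hsame M x y le_rfl hxy.le le_rfl)).2
    have hval : ∀ z, z ∉ A X M → q X M z = p → cL X p ≤ z → z ≤ cR X p →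
        h X M z = (z - cL X p) / (cR X p - cL X p) := by
      intro z hz hq h1 h2
      unfold h
      rw [if_neg hz, hq]
      have h3 : 0 ≤ (z - cL X p) / (cR X p - cL X p) := div_nonneg (by linarith) hlen.le
      have h4 : (z - cL X p) / (cR X p - cL X p) ≤ 1 := by
        rw [div_le_one hlen]; linarith
      rw [min_eq_right h4, max_eq_right h3]
    rw [hval x (hxA M) hqd e1 (hxy.le.trans e2), hval y (hyA M) (hqy.trans hqd) (e1.trans hxy.le) e2]
    exact div_lt_div_of_pos_right (by linarith) hlen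
  · by_cases h1 : ∃ k, x ∈ A X k ∧ Same X k x y
    · exact Or.inl h1
    right; left
    have hu : ¬ uIcc x y ⊆ X := by rwa [uIcc_of_le hxy.le]
    have hex := sep_same hX.1 hx hy hu
    classical
    let j := Nat.find hex
    have hj : ¬ Same X j x y := Nat.find_spec hex
    have hlt : ∀ i < j, Same X i x y := fun i hi => not_not.1 (Nat.find_min hex hi)
    have hxk : ∀ k, x ∈ A X k → j ≤ k := fun k hk => by
      by_contra hc
      exact h1 ⟨k, hk, hlt k (not_le.1 hc)⟩
    have hyk : ∀ k, y ∈ A X k → j ≤ k := fun k hk => by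
      by_contra hc
      have hs := hlt k (not_le.1 hc)
      exact h1 ⟨k, (tA X k).2 y x hk hx ((tSame X k).1 _ _ hs), hs⟩
    have hn : ∀ i < j, n X i x = n X i y := fun i hi =>
      (tB i x y hx hy hxy.le).2 (Or.inl (hlt i hi))
    refine ⟨j, ?_, fun i hi => ⟨hn i hi, (tHH i).2 x y hx hy hxy.le (hn i hi)⟩, ?_⟩
    · refine lt_of_le_of_ne ((tN tFin X hX j x y hx hy hxy.le).1) (fun he => ?_)
      rcases (tB j x y hx hy hxy.le).1 he with h2 | ⟨i, hi, hA, _⟩
      · exact hj h2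
      · exact absurd (hxk i hA) (not_le.2 hi)
    · rintro k (hk | hk)
      · exact hxk k hk
      · exact hyk k hk

end Q24.TS
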