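import Pool.Agent.Q24.TS.Stmts

set_option autoImplicit false

namespace Q24.TS

open Set Filter Topology

private lemma stage_fk_succ (X : Set ℝ) (W r : ℕ → ℝ) (k : ℕ) (x : ℝ) :
    fk X W r (k + 1) x = fk X W r k x + r k * h X k x := by
  simp only [fk, Finset.sum_range_succ]; ring

private lemma stage_hA (X : Set ℝ) (k : ℕ) (x : ℝ) (hx : x ∈ A X k) : h X k x = 0 := by
  simp [h, hx]

private lemma stage_step (hSame : TaskSame) (hA : TaskA) (hFin : TaskFin) (hN : TaskN)
    (hBl : TaskBlocks) (hH : TaskH) (hAn : TaskAnchor) (hF0 : TaskF0) (hComp : TaskComp)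
    (hQ : TaskQ) (hCont : TaskCont) (X : Set ℝ) (hX : CP X) (W r : ℕ → ℝ) (hW : Wt (NN X) W r)
    (k : ℕ) (y : ℝ) :
    (∃ x ∈ X, ∃ ε, Coin X x ε ∧ y = fk X W r (k + 1) x + ∑ i ∈ Finset.range (k + 1), ε i * r i) ↔
    (∃ x ∈ X, ∃ ε, Coin X x ε ∧ ∃ e : ℝ, (e = 0 ∨ e = 1) ∧
      y = fk X W r k x + ∑ i ∈ Finset.range k, ε i * r i + e * r k) := by
  obtain ⟨hsymm, htrans, hpart, hmono, -, -⟩ := hSame X k
  obtain ⟨hAmono, -⟩ := hA X k
  obtain ⟨-, -, -, hfkc, -, -, hf0mono, hf0le, hf0ge⟩ := hF0 hFin hN hH hCont X hX W r hW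
  have hrk : 0 < r k := hW.rpos k
  have hWk : r k ≤ W k := by
    have h1 : r (k + 0) ≤ ∑' i, r (k + i) := by
      have hs : Summable fun i => r (k + i) := by
        have := (summable_nat_add_iff k).2 hW.sr
        refine this.congr fun i => by rw [add_comm]
      exact hs.le_tsum 0 (fun j _ => (hW.rpos _).le)
    have h2 := hW.rW k
    simp only [add_zero] at h1
    linarith
  -- equality of `n` on blocks
  have hneq : ∀ s t, s ∈ X → t ∈ X → s ≤ t → Same X k s t → ∀ i ≤ k, n X i s = n X i t := by
    intro s t hs ht hst hsame i hi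
    exact (hBl hSame hA hFin hN X hX i s t hs ht hst).2 (Or.inl (hmono s t i hi hsame))
  have hhle : ∀ s t, s ∈ X → t ∈ X → s ≤ t → Same X k s t → ∀ i ≤ k, h X i s ≤ h X i t := by
    intro s t hs ht hst hsame i hi
    exact (hH hSame hA hFin hN hBl hComp hQ X hX i).2 s t hs ht hst
      (hneq s t hs ht hst hsame i hi)
  have hh01 : ∀ x, 0 ≤ h X k x ∧ h X k x ≤ 1 :=
    (hH hSame hA hFin hN hBl hComp hQ X hX k).1
  have hsumle : ∀ s t, s ∈ X → t ∈ X → s ≤ t → Same X k s t →
      ∑ i ∈ Finset.range k, r i * h X i s ≤ ∑ i ∈ Finset.range k, r i * h X i t := by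
    intro s t hs ht hst hsame
    refine Finset.sum_le_sum fun i hi => ?_
    exact mul_le_mul_of_nonneg_left (hhle s t hs ht hst hsame i (Finset.mem_range.1 hi).le)
      (hW.rpos i).le
  have hfkmono : ∀ s t, s ∈ X → t ∈ X → s ≤ t → Same X k s t → fk X W r k s ≤ fk X W r k t := by
    intro s t hs ht hst hsame
    have h1 := hf0mono s hs t ht hst
    have h2 := hsumle s t hs ht hst hsame
    simp only [fk]; linarith
  -- anchors: everything about the block of `x`
  have hcoin0 : ∀ x ε, x ∉ A X k → Coin X x ε → ∀ i ≤ k, ε i = 0 := by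
    intro x ε hx hε i hi
    rcases hε i with h0 | ⟨-, h1⟩
    · exact h0
    · exact absurd (hAmono i hi h1) hx
  have hsum0 : ∀ x ε, x ∉ A X k → Coin X x ε → ∑ i ∈ Finset.range k, ε i * r i = 0 := by
    intro x ε hx hε
    refine Finset.sum_eq_zero fun i hi => ?_
    rw [hcoin0 x ε hx hε i (Finset.mem_range.1 hi).le, zero_mul]
  have hcz : ∀ x, Coin X x (fun _ => 0) := fun x i => Or.inl rfl
  constructor
  · rintro ⟨x, hx, ε, hε, rfl⟩
    rw [stage_fk_succ, Finset.sum_range_succ]
    by_cases hxA : x ∈ A X k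
    · refine ⟨x, hx, ε, hε, ε k, ?_, ?_⟩
      · rcases hε k with h0 | ⟨h1, -⟩
        · exact Or.inl h0
        · exact Or.inr h1
      · rw [stage_hA X k x hxA]; ring
    · rw [hsum0 x ε hxA hε, hcoin0 x ε hxA hε k le_rfl]
      obtain ⟨a, b, hab, hIcc, hblock, ha0, hb1, hxa, hbx⟩ :=
        hAn hSame hA hFin hN hBl hComp hQ X hX k x hx hxA
      have haX : a ∈ X := hIcc ⟨le_rfl, hab.le⟩
      have hbX : b ∈ X := hIcc ⟨hab.le, le_rfl⟩
      have hxa' : Same X k x a := (hblock a ⟨le_rfl, hab.le⟩).2
      have hxb' : Same X k x b := (hblock b ⟨hab.le, le_rfl⟩).2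
      have hab' : Same X k a b := htrans a x b hx (hsymm x a hxa') hxb'
      rcases lt_or_ge x a with hlt | hge
      · obtain ⟨h0, -⟩ := hxa hlt
        refine ⟨x, hx, fun _ => 0, hcz x, 0, Or.inl rfl, ?_⟩
        rw [h0]; simp
      rcases lt_or_ge b x with hlt' | hge'
      · obtain ⟨h1, -⟩ := hbx hlt'
        refine ⟨x, hx, fun _ => 0, hcz x, 1, Or.inr rfl, ?_⟩
        rw [h1]; simp
      -- x in [a, b]
      have hWab : f0 X W a + W k ≤ f0 X W b :=
        hf0ge a haX b hbX hab.le k (hneq a b haX hbX hab.le hab' k le_rfl) ha0 hb1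
      have hfab : fk X W r k a + W k ≤ fk X W r k b := by
        have h2 := hsumle a b haX hbX hab.le hab'
        simp only [fk]; linarith
      have hax : fk X W r k a ≤ fk X W r k x := hfkmono a x haX hx hge (hsymm x a hxa')
      have hh := hh01 x
      have hrh0 : 0 ≤ r k * h X k x := mul_nonneg hrk.le hh.1
      have hrh1 : r k * h X k x ≤ r k := by nlinarith [hh.2]
      by_cases hy : fk X W r k x + r k * h X k x ≤ fk X W r k b
      · have hc : ContinuousOn (fk X W r k) (Icc x b) :=
          (hfkc k).mono fun t ht => hIcc ⟨hge.trans ht.1, ht.2⟩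
        obtain ⟨t, ht, hft⟩ := intermediate_value_Icc hge' hc
          (show fk X W r k x + r k * h X k x ∈ Icc (fk X W r k x) (fk X W r k b) from
            ⟨by linarith, hy⟩)
        refine ⟨t, hIcc ⟨hge.trans ht.1, ht.2⟩, fun _ => 0, hcz t, 0, Or.inl rfl, ?_⟩
        simp only [zero_mul, Finset.sum_const_zero, add_zero]
        linarith [hft]
      · push Not at hy
        have hc : ContinuousOn (fk X W r k) (Icc a x) :=
          (hfkc k).mono fun t ht => hIcc ⟨ht.1, ht.2.trans hge'⟩
        obtain ⟨t, ht, hft⟩ := intermediate_value_Icc hge hc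
          (show fk X W r k x + r k * h X k x - r k ∈ Icc (fk X W r k a) (fk X W r k x) from
            ⟨by linarith, by linarith⟩)
        refine ⟨t, hIcc ⟨ht.1, ht.2.trans hge'⟩, fun _ => 0, hcz t, 1, Or.inr rfl, ?_⟩
        simp only [zero_mul, Finset.sum_const_zero, add_zero, one_mul]
        linarith [hft]
  · rintro ⟨x, hx, ε, hε, e, he, rfl⟩
    by_cases hxA : x ∈ A X k
    · refine ⟨x, hx, Function.update ε k e, ?_, ?_⟩
      · intro i
        by_cases hik : i = k
        · subst hik
          rw [Function.update_self]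
          rcases he with h0 | h1
          · exact Or.inl h0
          · exact Or.inr ⟨h1, hxA⟩
        · rw [Function.update_of_ne hik]; exact hε i
      · rw [stage_fk_succ, stage_hA X k x hxA, Finset.sum_range_succ, Function.update_self]
        have : ∑ i ∈ Finset.range k, Function.update ε k e i * r i =
            ∑ i ∈ Finset.range k, ε i * r i := by
          refine Finset.sum_congr rfl fun i hi => ?_
          rw [Function.update_of_ne (Finset.mem_range.1 hi).ne]
        rw [this]; ring
    · rw [hsum0 x ε hxA hε]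
      obtain ⟨a, b, hab, hIcc, hblock, ha0, hb1, hxa, hbx⟩ :=
        hAn hSame hA hFin hN hBl hComp hQ X hX k x hx hxA
      have haX : a ∈ X := hIcc ⟨le_rfl, hab.le⟩
      have hbX : b ∈ X := hIcc ⟨hab.le, le_rfl⟩
      have hxa' : Same X k x a := (hblock a ⟨le_rfl, hab.le⟩).2
      have hxb' : Same X k x b := (hblock b ⟨hab.le, le_rfl⟩).2
      have hab' : Same X k a b := htrans a x b hx (hsymm x a hxa') hxb'
      have hfka : fk X W r (k + 1) a = fk X W r k a := by rw [stage_fk_succ, ha0]; ring
      have hfkb : fk X W r (k + 1) b = fk X W r k b + r k := by rw [stage_fk_succ, hb1]; ring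
      have hfkab : fk X W r k a ≤ fk X W r k b := hfkmono a b haX hbX hab.le hab'
      have hh := hh01 x
      have hrh0 : 0 ≤ r k * h X k x := mul_nonneg hrk.le hh.1
      have hrh1 : r k * h X k x ≤ r k := by nlinarith [hh.2]
      -- it suffices to find a preimage under `fk (k+1)`
      have key : ∀ t ∈ X, fk X W r (k + 1) t = fk X W r k x + 0 + e * r k →
          ∃ x' ∈ X, ∃ ε', Coin X x' ε' ∧ fk X W r k x + 0 + e * r k =
            fk X W r (k + 1) x' + ∑ i ∈ Finset.range (k + 1), ε' i * r i := by
        intro t ht hft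
        refine ⟨t, ht, fun _ => 0, hcz t, ?_⟩
        simp only [zero_mul, Finset.sum_const_zero, add_zero]
        rw [hft]; ring
      have ivt : ∀ s t, a ≤ s → s ≤ t → t ≤ b → fk X W r (k + 1) s ≤ fk X W r k x + 0 + e * r k →
          fk X W r k x + 0 + e * r k ≤ fk X W r (k + 1) t →
          ∃ u ∈ X, fk X W r (k + 1) u = fk X W r k x + 0 + e * r k := by
        intro s t has hst htb h1 h2
        have hc : ContinuousOn (fk X W r (k + 1)) (Icc s t) :=
          (hfkc (k + 1)).mono fun u hu => hIcc ⟨has.trans hu.1, hu.2.trans htb⟩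
        obtain ⟨u, hu, hfu⟩ := intermediate_value_Icc hst hc
          (show fk X W r k x + 0 + e * r k ∈ Icc (fk X W r (k + 1) s) (fk X W r (k + 1) t) from
            ⟨h1, h2⟩)
        exact ⟨u, hIcc ⟨has.trans hu.1, hu.2.trans htb⟩, hfu⟩
      have fin : ∃ u ∈ X, fk X W r (k + 1) u = fk X W r k x + 0 + e * r k := by
        rcases lt_or_ge x a with hlt | hge
        · obtain ⟨h0, hi⟩ := hxa hlt
          rcases he with rfl | rfl
          · exact ⟨x, hx, by rw [stage_fk_succ, h0]; ring⟩
          · have h1 : f0 X W a ≤ f0 X W x + r k := by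
              refine hf0le x hx a haX hlt.le k fun i hik => ⟨hneq x a hx haX hlt.le hxa' i hik, ?_⟩
              rcases hik.lt_or_eq with hl | rfl
              · exact hi i hl
              · rw [h0, ha0]
            have h2 : ∑ i ∈ Finset.range k, r i * h X i x = ∑ i ∈ Finset.range k, r i * h X i a :=
              Finset.sum_congr rfl fun i hik => by rw [hi i (Finset.mem_range.1 hik)]
            have h3 : fk X W r k a ≤ fk X W r k x + r k := by simp only [fk]; linarith
            have h4 : fk X W r k x ≤ fk X W r k a := hfkmono x a hx haX hlt.le hxa'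
            exact ivt a b le_rfl hab.le le_rfl (by linarith) (by linarith)
        rcases lt_or_ge b x with hlt' | hge'
        · obtain ⟨h1, hi⟩ := hbx hlt'
          rcases he with rfl | rfl
          · have h1' : f0 X W x ≤ f0 X W b + r k := by
              refine hf0le b hbX x hx hlt'.le k fun i hik =>
                ⟨hneq b x hbX hx hlt'.le (hsymm x b hxb') i hik, ?_⟩
              rcases hik.lt_or_eq with hl | rfl
              · exact (hi i hl).symm
              · rw [h1, hb1]
            have h2 : ∑ i ∈ Finset.range k, r i * h X i x = ∑ i ∈ Finset.range k, r i * h X i b :=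
              Finset.sum_congr rfl fun i hik => by rw [hi i (Finset.mem_range.1 hik)]
            have h3 : fk X W r k x ≤ fk X W r k b + r k := by simp only [fk]; linarith
            have h4 : fk X W r k b ≤ fk X W r k x :=
              hfkmono b x hbX hx hlt'.le (hsymm x b hxb')
            exact ivt a b le_rfl hab.le le_rfl (by linarith) (by linarith)
          · exact ⟨x, hx, by rw [stage_fk_succ, h1]; ring⟩
        · have hax : fk X W r k a ≤ fk X W r k x := hfkmono a x haX hx hge (hsymm x a hxa')
          have hxb : fk X W r k x ≤ fk X W r k b := hfkmono x b hx hbX hge' hxb'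
          have hfx := stage_fk_succ X W r k x
          rcases he with rfl | rfl
          · exact ivt a x le_rfl hge hge' (by linarith) (by linarith)
          · exact ivt x b hge hge' le_rfl (by linarith) (by linarith)
      obtain ⟨u, huX, hu⟩ := fin
      exact key u huX hu

theorem taskStage : TaskStage := by
  intro hSame hA hFin hN hBl hH hAn hF0 hComp hQ hCont X hX W r hW k
  induction k with
  | zero =>
    ext y
    simp only [Finset.range_zero, Finset.sum_empty, add_zero, Set.mem_ofPred_eq, fk]
    constructor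
    · rintro ⟨x, hx, ε, -, hy⟩
      exact ⟨x, hx, fun _ => 0, fun _ => Or.inl rfl, hy⟩
    · rintro ⟨x, hx, ε, -, hy⟩
      exact ⟨x, hx, fun _ => 0, fun _ => Or.inl rfl, hy⟩
  | succ k ih =>
    ext y
    simp only [Set.mem_ofPred_eq]
    rw [stage_step hSame hA hFin hN hBl hH hAn hF0 hComp hQ hCont X hX W r hW k y]
    constructor
    · rintro ⟨x, hx, ε, hε, e, he, rfl⟩
      have hm : fk X W r k x + ∑ i ∈ Finset.range k, ε i * r i ∈
          {y | ∃ x ∈ X, ∃ ε, Coin X x ε ∧ y = fk X W r k x + ∑ i ∈ Finset.range k, ε i * r i} :=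
        ⟨x, hx, ε, hε, rfl⟩
      rw [ih] at hm
      obtain ⟨x', hx', ε', hε', h'⟩ := hm
      refine ⟨x', hx', Function.update ε' k e, ?_, ?_⟩
      · intro i
        by_cases hik : i = k
        · subst hik
          rw [Function.update_self]; exact he
        · rw [Function.update_of_ne hik]; exact hε' i
      · rw [h', Finset.sum_range_succ, Function.update_self]
        have : ∑ i ∈ Finset.range k, Function.update ε' k e i * r i =
            ∑ i ∈ Finset.range k, ε' i * r i := by
          refine Finset.sum_congr rfl fun i hi => ?_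
          rw [Function.update_of_ne (Finset.mem_range.1 hi).ne]
        rw [this]; ring
    · rintro ⟨x, hx, ε, hε, rfl⟩
      have hm : f0 X W x + ∑ i ∈ Finset.range k, ε i * r i ∈
          {y | ∃ x ∈ X, ∃ ε, Coin0 ε ∧ y = f0 X W x + ∑ i ∈ Finset.range k, ε i * r i} :=
        ⟨x, hx, ε, hε, rfl⟩
      rw [← ih] at hm
      obtain ⟨x', hx', ε', hε', h'⟩ := hm
      refine ⟨x', hx', ε', hε', ε k, hε k, ?_⟩
      rw [Finset.sum_range_succ, ← h']; ring

end Q24.TS
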