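import Pool.Agent.Q24.TS.Stmts

set_option autoImplicit false

/-!
# Task SumsEq
-/

namespace Q24.TS

open Set Filter Topology

theorem hasSum_coin {r ε : ℕ → ℝ} (hr : ∀ j, 0 < r j) (hs : Summable r) (hε : Coin0 ε) (a : ℝ) :
    HasSum (fun i => (if i = 0 then a else 0) + ε i * r i) (a + ∑' i, ε i * r i) := by
  refine (hasSum_ite_eq 0 a).add (Summable.hasSum ?_)
  refine Summable.of_nonneg_of_le (fun i => ?_) (fun i => ?_) hs
  · rcases hε i with h | h <;> rw [h]
    · simp
    · simpa using (hr i).le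
  · rcases hε i with h | h <;> rw [h]
    · simpa using (hr i).le
    · simp

theorem taskSumsEq : TaskSumsEq := by
  classical
  intro X W r hW
  ext y
  constructor
  · rintro ⟨u, hu, hsum⟩
    obtain ⟨x, hx, hux⟩ := hu 0
    have h1 : ∃ e0 : ℝ, (e0 = 0 ∨ e0 = 1) ∧ u 0 = f0 X W x + e0 * r 0 := by
      rcases hux with h | h
      · exact ⟨0, Or.inl rfl, by rw [h]; ring⟩
      · exact ⟨1, Or.inr rfl, by rw [h]; ring⟩
    obtain ⟨e0, he0, hu0⟩ := h1
    have h2 : ∀ j, ∃ e : ℝ, (e = 0 ∨ e = 1) ∧ u (j + 1) = e * r (j + 1) := by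
      intro j
      have h3 : u (j + 1) ∈ ({0, r (j + 1)} : Set ℝ) := hu (j + 1)
      rcases h3 with h | h
      · exact ⟨0, Or.inl rfl, by rw [h]; ring⟩
      · exact ⟨1, Or.inr rfl, by rw [h]; ring⟩
    choose e he hue using h2
    let ε : ℕ → ℝ := fun i => Nat.casesOn i e0 e
    have hε : Coin0 ε := by
      intro i
      cases i with
      | zero => exact he0
      | succ i => exact he i
    refine ⟨x, hx, ε, hε, ?_⟩
    have h3 := hasSum_coin hW.rpos hW.sr hε (f0 X W x)
    refine hsum.unique ?_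
    convert h3 using 1
    funext i
    cases i with
    | zero => simpa [ε] using hu0
    | succ i => simpa [ε] using hue i
  · rintro ⟨x, hx, ε, hε, rfl⟩
    refine ⟨_, fun i => ?_, hasSum_coin hW.rpos hW.sr hε (f0 X W x)⟩
    cases i with
    | zero =>
      refine ⟨x, hx, ?_⟩
      rcases hε 0 with h | h
      · left; simp [h]
      · right; simp [h]
    | succ i =>
      show _ ∈ ({0, r (i + 1)} : Set ℝ)
      rcases hε (i + 1) with h | h
      · left; simp [h]
      · right; simp [h]

end Q24.TS
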