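import Pool.Agent.Q24.TS.Stmts

set_option autoImplicit false

namespace Q24.TS

namespace WtAux

/-- the weights -/
noncomputable def Wf (N : ℕ → ℝ) : ℕ → ℝ
  | 0 => 1
  | j + 1 => Wf N j / (64 * N (j + 1))

theorem Wf_pos {N : ℕ → ℝ} (hN : ∀ j, 1 ≤ N j) (j : ℕ) : 0 < Wf N j := by
  induction j with
  | zero => simp [Wf]
  | succ j ih =>
    have := hN (j + 1)
    simp only [Wf]
    positivity

theorem Wf_mul {N : ℕ → ℝ} (hN : ∀ j, 1 ≤ N j) (j : ℕ) : Wf N (j + 1) * N (j + 1) = Wf N j / 64 := by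
  have := hN (j + 1)
  have h0 : N (j + 1) ≠ 0 := by positivity
  simp only [Wf]
  field_simp

theorem Wf_le {N : ℕ → ℝ} (hN : ∀ j, 1 ≤ N j) (j i : ℕ) : Wf N (j + i) ≤ Wf N j * (1 / 64) ^ i := by
  induction i with
  | zero => simp
  | succ i ih =>
    have h1 := Wf_mul hN (j + i)
    have h2 := hN (j + i + 1)
    have h3 := Wf_pos hN (j + i + 1)
    have h4 : Wf N (j + i + 1) ≤ Wf N (j + i) / 64 := by
      rw [← h1]; nlinarith
    calc Wf N (j + (i + 1)) = Wf N (j + i + 1) := rfl
      _ ≤ Wf N (j + i) / 64 := h4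
      _ ≤ Wf N j * (1 / 64) ^ i / 64 := by linarith
      _ = Wf N j * (1 / 64) ^ (i + 1) := by ring

theorem sumW {N : ℕ → ℝ} (hN : ∀ j, 1 ≤ N j) (j : ℕ) :
    Summable (fun i => Wf N (j + i)) ∧ ∑' i, Wf N (j + i) ≤ Wf N j * (64 / 63) := by
  have hg : HasSum (fun i : ℕ => Wf N j * (1 / 64 : ℝ) ^ i) (Wf N j * (1 - 1 / 64)⁻¹) :=
    (hasSum_geometric_of_lt_one (by norm_num) (by norm_num)).mul_left _
  have hs : Summable (fun i => Wf N (j + i)) :=
    Summable.of_nonneg_of_le (fun i => (Wf_pos hN _).le) (Wf_le hN j) hg.summable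
  refine ⟨hs, ?_⟩
  have := hs.tsum_le_tsum (Wf_le hN j) hg.summable
  rw [hg.tsum_eq] at this
  norm_num at this ⊢
  exact this

end WtAux

open WtAux in
theorem taskWt : TaskWt := by
  intro N hN
  refine ⟨Wf N, fun j => Wf N j / 16, hN, Wf_pos hN, fun j => by have := Wf_pos hN j; positivity, ?_, ?_, ?_, ?_⟩
  · rw [← summable_nat_add_iff 1]
    have h := (sumW hN 0).1
    simp only [zero_add] at h
    have : (fun j => Wf N (j + 1) * N (j + 1)) = fun j => Wf N j / 64 := by
      funext j; exact Wf_mul hN j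
    rw [this]
    exact h.div_const _
  · have h := (sumW hN 0).1
    simp only [zero_add] at h
    exact h.div_const _
  · intro j
    have h := sumW hN j
    have e : (fun i => Wf N (j + 1 + i) * N (j + 1 + i)) = fun i => Wf N (j + i) / 64 := by
      funext i
      have := Wf_mul hN (j + i)
      rw [show j + 1 + i = j + i + 1 by ring]
      exact this
    rw [e, tsum_div_const]
    have := Wf_pos hN j
    linarith [h.2]
  · intro j
    have h := sumW hN j
    rw [tsum_div_const]
    have := Wf_pos hN j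
    linarith [h.2]

end Q24.TS
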